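import Mathlib

set_option autoImplicit false

namespace Pool.Agent.Lib.MP_f786e3_al

open scoped InnerProductSpace symmDiff
open Classical

/-- A family of vectors whose Gram matrix is invariant under a group action on the index set
gives a unitary representation on the closed span. -/
theorem exists_rep_of_gram {G ι E₀ : Type} [Group G] [MulAction G ι]
    [NormedAddCommGroup E₀] [InnerProductSpace ℂ E₀] [CompleteSpace E₀]
    (ξ : ι → E₀) (hξ : ∀ (g : G) (i j : ι), ⟪ξ (g • i), ξ (g • j)⟫_ℂ = ⟪ξ i, ξ j⟫_ℂ) :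
    ∃ (E : Type) (_ : NormedAddCommGroup E) (_ : InnerProductSpace ℂ E) (_ : CompleteSpace E)
      (π : G →* (E ≃ₗᵢ[ℂ] E)) (η : ι → E),
      (∀ i j, ⟪η i, η j⟫_ℂ = ⟪ξ i, ξ j⟫_ℂ) ∧ (∀ g i, π g (η i) = η (g • i)) ∧
      Dense (Submodule.span ℂ (Set.range η) : Set E) := by
  let V : Submodule ℂ E₀ := (Submodule.span ℂ (Set.range ξ)).topologicalClosure
  have hmem : ∀ i, ξ i ∈ V := fun i =>
    Submodule.le_topologicalClosure _ (Submodule.subset_span ⟨i, rfl⟩)
  let η : ι → V := fun i => ⟨ξ i, hmem i⟩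
  have hη : ∀ i j, ⟪η i, η j⟫_ℂ = ⟪ξ i, ξ j⟫_ℂ := fun i j => rfl
  have hdense : Dense (Submodule.span ℂ (Set.range η) : Set V) := by
    intro v
    rw [closure_subtype]
    have hv : (v : E₀) ∈ closure (Submodule.span ℂ (Set.range ξ) : Set E₀) := v.2
    refine closure_mono ?_ hv
    intro w hw
    refine Submodule.span_induction
      (p := fun w _ => w ∈ Subtype.val '' (Submodule.span ℂ (Set.range η) : Set V))
      ?_ ?_ ?_ ?_ hw
    · rintro _ ⟨i, rfl⟩
      exact ⟨η i, Submodule.subset_span ⟨i, rfl⟩, rfl⟩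
    · exact ⟨0, Submodule.zero_mem _, rfl⟩
    · rintro _ _ _ _ ⟨a, ha, rfl⟩ ⟨b, hb, rfl⟩
      exact ⟨a + b, Submodule.add_mem _ ha hb, rfl⟩
    · rintro c _ _ ⟨a, ha, rfl⟩
      exact ⟨c • a, Submodule.smul_mem _ c ha, rfl⟩
  let e : (ι →₀ ℂ) →ₗ[ℂ] V := Finsupp.linearCombination ℂ η
  have he : DenseRange e := by
    have : Set.range e = (Submodule.span ℂ (Set.range η) : Set V) := by
      rw [← Finsupp.range_linearCombination]
      rfl
    unfold DenseRange
    rw [this]
    exact hdense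
  let f : G → ((ι →₀ ℂ) ≃ₗ[ℂ] (ι →₀ ℂ)) := fun g => Finsupp.domLCongr (MulAction.toPerm g)
  have hf : ∀ g x, e (f g x) = x.sum fun i c => c • η (g • i) := by
    intro g x
    induction x using Finsupp.induction_linear with
    | zero => simp
    | add a b ha hb =>
      rw [map_add, map_add, ha, hb, Finsupp.sum_add_index'] <;> simp [add_smul]
    | single i c => simp [f, e]
  have hnorm : ∀ g x, ‖e (f g x)‖ = ‖e x‖ := by
    intro g x
    have h1 : ⟪e (f g x), e (f g x)⟫_ℂ = ⟪e x, e x⟫_ℂ := by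
      rw [hf]
      simp only [e, Finsupp.linearCombination_apply, Finsupp.sum, sum_inner, inner_sum,
        inner_smul_left, inner_smul_right, hη, hξ]
    rw [@norm_eq_sqrt_re_inner ℂ, @norm_eq_sqrt_re_inner ℂ, h1]
  let U : G → (V ≃ₗᵢ[ℂ] V) := fun g => (f g).extendOfIsometry e e he he (hnorm g)
  have hU : ∀ g i, U g (η i) = η (g • i) := by
    intro g i
    have h1 : η i = e (Finsupp.single i 1) := by simp [e]
    rw [h1]
    simp only [U]
    rw [LinearEquiv.extendOfIsometry_eq, hf]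
    simp
  have hext : ∀ A B : V ≃ₗᵢ[ℂ] V, (∀ i, A (η i) = B (η i)) → A = B := by
    intro A B h
    have h2 : (A.toContinuousLinearEquiv : V →L[ℂ] V) = (B.toContinuousLinearEquiv : V →L[ℂ] V) := by
      refine ContinuousLinearMap.ext_on hdense ?_
      rintro _ ⟨i, rfl⟩
      exact h i
    ext1 v
    exact congrArg (fun L : V →L[ℂ] V => L v) h2
  let π : G →* (V ≃ₗᵢ[ℂ] V) := MonoidHom.mk' U (by
    intro a b
    refine hext _ _ fun i => ?_
    show U (a * b) (η i) = U a (U b (η i))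
    rw [hU, hU, hU, mul_smul])
  exact ⟨V, inferInstance, inferInstance, inferInstance, π, η, hη, hU, hdense⟩

/-- Coefficients of the product vector attached to a finite set. -/
noncomputable def coeff {X : Type} (r s : ℝ) (P D : Finset X) : ℝ :=
  (∏ x ∈ D, if x ∈ P then s else 0) * ∏ _x ∈ P \ D, r

theorem coeff_eq_zero {X : Type} (r s : ℝ) {P D : Finset X} (h : ¬ D ⊆ P) :
    coeff r s P D = 0 := by
  obtain ⟨x, hx, hxP⟩ := Finset.not_subset.1 h
  unfold coeff
  rw [Finset.prod_eq_zero hx (if_neg hxP), zero_mul]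

theorem sum_coeff_mul {X : Type} (r s : ℝ) (hrs : r ^ 2 + s ^ 2 = 1) (P Q : Finset X) :
    ∑ D ∈ (P ∪ Q).powerset, coeff r s P D * coeff r s Q D = r ^ (P ∆ Q).card := by
  have key : ∀ (R : Finset X), R ⊆ P ∪ Q → ∀ D : Finset X,
      ∏ _x ∈ R \ D, r = ∏ x ∈ (P ∪ Q) \ D, if x ∈ R then r else 1 := by
    intro R hR D
    rw [← Finset.prod_filter]
    congr 1
    ext x
    simp only [Finset.mem_sdiff, Finset.mem_filter]
    exact ⟨fun h => ⟨⟨hR h.1, h.2⟩, h.1⟩, fun h => ⟨h.2, h.1.2⟩⟩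
  have h1 : ∀ D ∈ (P ∪ Q).powerset, coeff r s P D * coeff r s Q D =
      (∏ x ∈ D, (if x ∈ P then s else 0) * (if x ∈ Q then s else 0)) *
        ∏ x ∈ (P ∪ Q) \ D, (if x ∈ P then r else 1) * (if x ∈ Q then r else 1) := by
    intro D _
    unfold coeff
    rw [key P Finset.subset_union_left, key Q Finset.subset_union_right,
      Finset.prod_mul_distrib, Finset.prod_mul_distrib]
    ring
  rw [Finset.sum_congr rfl h1, ← Finset.prod_add]
  have h2 : ∀ x ∈ P ∪ Q, (if x ∈ P then s else 0) * (if x ∈ Q then s else 0) +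
      (if x ∈ P then r else 1) * (if x ∈ Q then r else 1) = if x ∈ P ∆ Q then r else 1 := by
    intro x hx
    rw [Finset.mem_union] at hx
    by_cases hP : x ∈ P <;> by_cases hQ : x ∈ Q <;>
      simp [hP, hQ, Finset.mem_symmDiff] at hx ⊢
    linarith
  rw [Finset.prod_congr rfl h2, ← Finset.prod_filter, Finset.prod_const]
  congr 2
  ext x
  simp only [Finset.mem_filter, Finset.mem_union, Finset.mem_symmDiff]
  tauto

/-- Vectors with Gram matrix `r n ^ |P ∆ Q|` in orthogonal layers indexed by `n`. -/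
theorem exists_vectors (X : Type) (r : ℕ → ℝ) (hr : ∀ n, r n ^ 2 ≤ 1) :
    ∃ ξ : ℕ × Finset X → lp (fun _ : ℕ × Finset X => ℂ) 2,
      ∀ n m P Q, ⟪ξ (n, P), ξ (m, Q)⟫_ℂ =
        if n = m then (((r n) ^ (P ∆ Q).card : ℝ) : ℂ) else 0 := by
  let s : ℕ → ℝ := fun n => Real.sqrt (1 - r n ^ 2)
  have hrs : ∀ n, r n ^ 2 + s n ^ 2 = 1 := by
    intro n
    simp only [s]
    rw [Real.sq_sqrt (by linarith [hr n])]
    ring
  let b : ℕ × Finset X → lp (fun _ : ℕ × Finset X => ℂ) 2 := fun i => lp.single 2 i (1 : ℂ)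
  have hb : ∀ i j, ⟪b i, b j⟫_ℂ = if i = j then 1 else 0 := by
    intro i j
    simp only [b]
    rw [lp.inner_single_left]
    by_cases h : i = j
    · subst h
      simp
    · simp [h, lp.single_apply]
  refine ⟨fun p => ∑ D ∈ p.2.powerset, ((coeff (r p.1) (s p.1) p.2 D : ℝ) : ℂ) • b (p.1, D), ?_⟩
  intro n m P Q
  have hext : ∀ (k : ℕ) (R : Finset X), R ⊆ P ∪ Q →
      ∑ D ∈ R.powerset, ((coeff (r k) (s k) R D : ℝ) : ℂ) • b (k, D) =
      ∑ D ∈ (P ∪ Q).powerset, ((coeff (r k) (s k) R D : ℝ) : ℂ) • b (k, D) := by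
    intro k R hR
    refine Finset.sum_subset (Finset.powerset_mono.2 hR) fun D _ hD => ?_
    rw [coeff_eq_zero _ _ (fun h => hD (Finset.mem_powerset.2 h))]
    simp
  simp only []
  rw [hext n P Finset.subset_union_left, hext m Q Finset.subset_union_right]
  simp only [sum_inner, inner_sum, inner_smul_left, inner_smul_right, hb, Prod.mk.injEq]
  by_cases h : n = m
  · subst h
    rw [if_pos rfl, ← sum_coeff_mul (r n) (s n) (hrs n) P Q]
    push_cast
    refine Finset.sum_congr rfl fun D hD => ?_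
    simp only [true_and, mul_ite, mul_one, mul_zero, Finset.sum_ite_eq', hD,
      if_true, Complex.conj_ofReal]
    ring
  · simp [h]

theorem card_symmDiff_triangle {X : Type} (P Q R : Finset X) :
    (P ∆ R).card ≤ (P ∆ Q).card + (Q ∆ R).card :=
  (Finset.card_le_card (symmDiff_triangle P Q R)).trans (Finset.card_union_le _ _)

/-- A left invariant wall type distance that is unbounded on `H` gives a unitary representation
with almost invariant vectors and without nonzero vectors fixed by `H`. -/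
theorem exists_rep_of_walls {G X : Type} [Group G] (Q : G → Finset X)
    (hQ : ∀ k g h : G, (Q (k * g) ∆ Q (k * h)).card = (Q g ∆ Q h).card)
    (H : Set G) (hH : ∀ N : ℕ, ∃ h ∈ H, N ≤ (Q h ∆ Q 1).card) :
    ∃ (E : Type) (_ : NormedAddCommGroup E) (_ : InnerProductSpace ℂ E) (_ : CompleteSpace E)
      (π : G →* (E ≃ₗᵢ[ℂ] E)),
      (∀ (F : Finset G) (ε : ℝ), 0 < ε → ∃ v : E, ‖v‖ = 1 ∧ ∀ g ∈ F, ‖π g v - v‖ < ε) ∧
      ∀ v : E, (∀ h ∈ H, π h v = v) → v = 0 := by
  let r : ℕ → ℝ := fun n => 1 - 1 / ((n : ℝ) + 1)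
  have hr0 : ∀ n, 0 ≤ r n := by
    intro n
    have : 1 / ((n : ℝ) + 1) ≤ 1 := by
      rw [div_le_one (by positivity)]
      linarith [Nat.cast_nonneg (α := ℝ) n]
    simp only [r]
    linarith
  have hr1 : ∀ n, r n < 1 := by
    intro n
    have : 0 < 1 / ((n : ℝ) + 1) := by positivity
    simp only [r]
    linarith
  have hrlim : Filter.Tendsto r Filter.atTop (nhds 1) := by
    have := (tendsto_const_nhds (x := (1 : ℝ))).sub tendsto_one_div_add_atTop_nhds_zero_nat
    rw [sub_zero] at this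
    exact this
  obtain ⟨ξ, hξ⟩ := exists_vectors X r (fun n => by nlinarith [hr0 n, hr1 n])
  let act : MulAction G (ℕ × G) :=
    { smul := fun g p => (p.1, g * p.2)
      one_smul := fun p => Prod.ext rfl (one_mul p.2)
      mul_smul := fun a b p => Prod.ext rfl (mul_assoc a b p.2) }
  have hact : ∀ (g : G) (n : ℕ) (h : G), g • ((n, h) : ℕ × G) = (n, g * h) := fun _ _ _ => rfl
  obtain ⟨E, i1, i2, i3, π, η, hη, hπ, hdense⟩ :=
    exists_rep_of_gram (G := G) (fun p : ℕ × G => ξ (p.1, Q p.2)) (by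
      rintro g ⟨n, a⟩ ⟨m, b⟩
      rw [hact, hact]
      simp only [hξ, hQ])
  have hη' : ∀ n m a b, ⟪η (n, a), η (m, b)⟫_ℂ =
      if n = m then (((r n) ^ (Q a ∆ Q b).card : ℝ) : ℂ) else 0 := by
    intro n m a b
    rw [hη, hξ]
  have hnorm : ∀ p, ‖η p‖ = 1 := by
    rintro ⟨n, a⟩
    rw [@norm_eq_sqrt_re_inner ℂ, hη']
    simp
  refine ⟨E, i1, i2, i3, π, ?_, ?_⟩
  · intro F ε hε
    have hev : ∀ᶠ n in Filter.atTop, ∀ g ∈ F, 2 - 2 * (r n) ^ (Q g ∆ Q 1).card < ε ^ 2 := by
      rw [Filter.eventually_all_finset]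
      intro g _
      have h1 := (tendsto_const_nhds (x := (2 : ℝ))).sub
        ((hrlim.pow (Q g ∆ Q 1).card).const_mul 2)
      simp only [one_pow, mul_one, sub_self] at h1
      exact h1.eventually (gt_mem_nhds (by positivity))
    obtain ⟨n, hn⟩ := hev.exists
    refine ⟨η (n, 1), hnorm _, fun g hg => ?_⟩
    rw [hπ, hact, mul_one]
    refine lt_of_pow_lt_pow_left₀ 2 hε.le ?_
    rw [@norm_sub_sq ℂ, hnorm, hnorm, hη', if_pos rfl]
    have := hn g hg
    simp only [RCLike.re_to_complex, Complex.ofReal_re]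
    linarith
  · intro v hv
    choose t ht hQt using hH
    have hweak : ∀ (p : ℕ × G) (w : E), w ∈ Submodule.span ℂ (Set.range η) →
        Filter.Tendsto (fun N => ⟪η (t N • p), w⟫_ℂ) Filter.atTop (nhds 0) := by
      rintro ⟨n, a⟩ w hw
      refine Submodule.span_induction
        (p := fun w _ => Filter.Tendsto (fun N => ⟪η (t N • (n, a)), w⟫_ℂ) Filter.atTop (nhds 0))
        ?_ ?_ ?_ ?_ hw
      · rintro _ ⟨⟨m, b⟩, rfl⟩
        simp only [hact, hη']
        by_cases h : n = m
        · simp only [if_pos h]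
          have hc : Filter.Tendsto (fun N => (Q (t N * a) ∆ Q b).card) Filter.atTop
              Filter.atTop := by
            rw [Filter.tendsto_atTop_atTop]
            intro M
            refine ⟨M + (Q 1 ∆ Q a).card + (Q b ∆ Q 1).card, fun N hN => ?_⟩
            have h1 := hQt N
            have h2 := card_symmDiff_triangle (Q (t N)) (Q (t N * a)) (Q 1)
            have h3 := card_symmDiff_triangle (Q (t N * a)) (Q b) (Q 1)
            have h4 := hQ (t N) 1 a
            rw [mul_one] at h4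
            omega
          have h5 := (tendsto_pow_atTop_nhds_zero_of_lt_one (hr0 n) (hr1 n)).comp hc
          have h6 := (Complex.continuous_ofReal.tendsto 0).comp h5
          simpa [Function.comp_def] using h6
        · simp only [if_neg h]
          exact tendsto_const_nhds
      · simp
      · intro a b _ _ ha hb
        simpa [inner_add_right] using ha.add hb
      · intro c a _ ha
        simpa [inner_smul_right] using ha.const_mul c
    have horth : ∀ p, ⟪η p, v⟫_ℂ = 0 := by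
      intro p
      by_contra hne
      have hpos : 0 < ‖⟪η p, v⟫_ℂ‖ / 2 := by
        have := norm_pos_iff.2 hne
        positivity
      obtain ⟨w, hw, hvw⟩ := Metric.mem_closure_iff.1 (hdense v) _ hpos
      have h1 := (hweak p w hw).norm
      rw [norm_zero] at h1
      obtain ⟨N, hN⟩ := (h1.eventually (gt_mem_nhds hpos)).exists
      have h2 : ⟪η (t N • p), v⟫_ℂ = ⟪η p, v⟫_ℂ := by
        rw [← hπ]
        conv_lhs => rw [← hv (t N) (ht N)]
        exact (π (t N)).inner_map_map _ _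
      have h3 : ⟪η p, v⟫_ℂ = ⟪η (t N • p), w⟫_ℂ + ⟪η (t N • p), v - w⟫_ℂ := by
        rw [← inner_add_right, ← h2]
        congr 1
        abel
      have h4 : ‖⟪η (t N • p), v - w⟫_ℂ‖ ≤ ‖v - w‖ := by
        have := norm_inner_le_norm (𝕜 := ℂ) (η (t N • p)) (v - w)
        rwa [hnorm, one_mul] at this
      have h5 := norm_add_le ⟪η (t N • p), w⟫_ℂ ⟪η (t N • p), v - w⟫_ℂ
      rw [← h3] at h5
      rw [dist_eq_norm] at hvw
      linarith
    refine hdense.eq_zero_of_inner_right (𝕜 := ℂ) ?_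
    intro w hw
    refine Submodule.span_induction (p := fun w _ => ⟪w, v⟫_ℂ = 0) ?_ ?_ ?_ ?_ hw
    · rintro _ ⟨p, rfl⟩
      exact horth p
    · simp
    · intro a b _ _ ha hb
      rw [inner_add_left, ha, hb, add_zero]
    · intro c a _ ha
      rw [inner_smul_left, ha, mul_zero]

end Pool.Agent.Lib.MP_f786e3_al
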