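import Mathlib

set_option autoImplicit false

namespace Pool.Agent.Lib.MP_f786e3_al

open OnePoint Filter Topology Matrix

/-- A real function tends to the point at infinity when its absolute value tends to infinity. -/
theorem tendsto_coe_infty_of_abs {α : Type} {l : Filter α} {f : α → ℝ}
    (h : Tendsto (fun a => |f a|) l atTop) :
    Tendsto (fun a => ((f a : ℝ) : OnePoint ℝ)) l (𝓝 ∞) := by
  refine OnePoint.tendsto_coe_infty.comp ?_
  rw [coclosedCompact_eq_cocompact, ← Metric.cobounded_eq_cocompact, ← tendsto_norm_atTop_iff_cobounded]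
  exact h

/-- The inversion of the projective line. -/
noncomputable def inversion : OnePoint ℝ → OnePoint ℝ :=
  fun x => x.elim ((0 : ℝ) : OnePoint ℝ) (fun t => if t = 0 then ∞ else ((t⁻¹ : ℝ) : OnePoint ℝ))

theorem continuous_inversion : Continuous inversion := by
  rw [OnePoint.continuous_iff]
  constructor
  · show Tendsto _ _ (𝓝 ((0 : ℝ) : OnePoint ℝ))
    rw [coclosedCompact_eq_cocompact, ← Metric.cobounded_eq_cocompact]
    have h1 : Tendsto (fun t : ℝ => ((t⁻¹ : ℝ) : OnePoint ℝ)) (Bornology.cobounded ℝ)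
        (𝓝 ((0 : ℝ) : OnePoint ℝ)) :=
      (OnePoint.continuous_coe.tendsto 0).comp (tendsto_inv₀_cobounded)
    refine h1.congr' ?_
    filter_upwards [Bornology.eventually_ne_cobounded (0 : ℝ)] with t ht
    simp [inversion, ht]
  · rw [continuous_iff_continuousAt]
    intro t
    by_cases ht : t = 0
    · subst ht
      rw [← continuousWithinAt_compl_self]
      have h0 : inversion ((0 : ℝ) : OnePoint ℝ) = ∞ := by simp [inversion]
      show Tendsto _ _ (𝓝 (inversion ((0 : ℝ) : OnePoint ℝ)))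
      rw [h0]
      have h1 : Tendsto (fun t : ℝ => ((t⁻¹ : ℝ) : OnePoint ℝ)) (𝓝[≠] 0) (𝓝 ∞) := by
        refine tendsto_coe_infty_of_abs ?_
        have := tendsto_norm_inv_nhdsNE_zero_atTop (α := ℝ)
        simpa using this
      refine h1.congr' ?_
      filter_upwards [self_mem_nhdsWithin] with t ht
      have ht' : t ≠ 0 := ht
      simp [inversion, ht']
    · have h1 : ContinuousAt (fun t : ℝ => ((t⁻¹ : ℝ) : OnePoint ℝ)) t :=
        OnePoint.continuous_coe.continuousAt.comp (continuousAt_inv₀ ht)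
      refine h1.congr ?_
      filter_upwards [isOpen_ne.mem_nhds ht] with u hu
      simp [inversion, hu]

theorem continuous_affine (p q : ℝ) (hp : p ≠ 0) :
    Continuous (OnePoint.map (fun t : ℝ => p * t + q)) :=
  ((Homeomorph.mulLeft₀ p hp).trans (Homeomorph.addRight q)).onePointCongr.continuous

/-- Moebius maps are continuous on the projective line. -/
theorem continuous_moebius (g : GL (Fin 2) ℝ) : Continuous (fun x : OnePoint ℝ => g • x) := by
  have hdet : g 0 0 * g 1 1 - g 0 1 * g 1 0 ≠ 0 := by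
    have := g.det_ne_zero
    rwa [det_fin_two] at this
  by_cases hc : g 1 0 = 0
  · have hd : g 1 1 ≠ 0 := by
      intro h
      apply hdet
      simp [hc, h]
    have ha : g 0 0 ≠ 0 := by
      intro h
      apply hdet
      simp [hc, h]
    refine (continuous_affine (g 0 0 / g 1 1) (g 0 1 / g 1 1) (div_ne_zero ha hd)).congr ?_
    intro x
    cases x with
    | infty => simp [smul_infty_eq_ite, hc]
    | coe t =>
      simp only [smul_some_eq_ite, hc, zero_mul, zero_add, if_neg hd, map_some, coe_eq_coe]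
      field_simp
  · have h1 := (continuous_affine (-(g 0 0 * g 1 1 - g 0 1 * g 1 0) / g 1 0) (g 0 0 / g 1 0)
      (div_ne_zero (neg_ne_zero.2 hdet) hc)).comp
      (continuous_inversion.comp (continuous_affine (g 1 0) (g 1 1) hc))
    refine h1.congr ?_
    intro x
    cases x with
    | infty => simp [smul_infty_eq_ite, hc, inversion]
    | coe t =>
      by_cases ht : g 1 0 * t + g 1 1 = 0
      · simp [smul_some_eq_ite, ht, inversion]
      · simp only [smul_some_eq_ite, if_neg ht, Function.comp, map_some, inversion, elim_some,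
          coe_eq_coe]
        field_simp
        ring

/-- A Moebius map with infinitely many real fixed points is the identity map. -/
theorem smul_eq_self_of_infinite (g : GL (Fin 2) ℝ)
    (h : {t : ℝ | g • (t : OnePoint ℝ) = t}.Infinite) (x : OnePoint ℝ) : g • x = x := by
  have h1 : g.fixpointPolynomial = 0 := by
    refine Polynomial.eq_zero_of_infinite_isRoot _ (h.mono fun t ht => ?_)
    have := GeneralLinearGroup.fixpointPolynomial_aeval_eq_zero_iff.2 ht
    simpa [Polynomial.aeval_def] using this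
  cases x with
  | infty =>
    obtain ⟨a, ha⟩ := GeneralLinearGroup.fixpointPolynomial_eq_zero_iff.1 h1
    rw [smul_infty_eq_self_iff]
    have : g.val 1 0 = 0 := by rw [← ha]; simp
    exact this
  | coe t =>
    rw [← GeneralLinearGroup.fixpointPolynomial_aeval_eq_zero_iff, h1, map_zero]

theorem smul_eq_of_infinite (g g' : GL (Fin 2) ℝ)
    (h : {t : ℝ | g • (t : OnePoint ℝ) = g' • (t : OnePoint ℝ)}.Infinite) (x : OnePoint ℝ) :
    g • x = g' • x := by
  have := smul_eq_self_of_infinite (g'⁻¹ * g) (h.mono fun t ht => by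
    have ht' : g • (t : OnePoint ℝ) = g' • (t : OnePoint ℝ) := ht
    show (g'⁻¹ * g) • (t : OnePoint ℝ) = t
    rw [mul_smul, ht', inv_smul_smul]) x
  rw [mul_smul, inv_smul_eq_iff] at this
  exact this

/-- If a homeomorphism of the projective line agrees locally with members of a family of Moebius
maps along a preconnected set of reals, it agrees with one of them on the closure. -/
theorem exists_eq_on_closure {ι : Type} (m : ι → GL (Fin 2) ℝ) (f : OnePoint ℝ → OnePoint ℝ)
    (hf : Continuous f) (I : Set ℝ) (hI : IsPreconnected I) (hne : I.Nonempty)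
    (h : ∀ t ∈ I, ∃ i, ∀ᶠ y in 𝓝 (t : OnePoint ℝ), f y = m i • y) :
    ∃ i, ∀ x ∈ closure ((↑) '' I : Set (OnePoint ℝ)), f x = m i • x := by
  obtain ⟨t₀, ht₀⟩ := hne
  obtain ⟨i₀, hi₀⟩ := h t₀ ht₀
  refine ⟨i₀, ?_⟩
  have key : ∀ t ∈ I, ∀ᶠ y in 𝓝 (t : OnePoint ℝ), f y = m i₀ • y := by
    let u : Set ℝ := {t | ∀ᶠ y in 𝓝 (t : OnePoint ℝ), f y = m i₀ • y}
    have hu : IsOpen u := (isOpen_setOfPred_eventually_nhds).preimage OnePoint.continuous_coe
    have hcl : closure u ∩ I ⊆ u := by
      rintro t ⟨ht1, ht2⟩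
      obtain ⟨j, hj⟩ := h t ht2
      have hj2 : ∀ᶠ s : ℝ in 𝓝 t, ∀ᶠ y in 𝓝 (s : OnePoint ℝ), f y = m j • y :=
        (OnePoint.continuous_coe.tendsto t).eventually hj.eventually_nhds
      obtain ⟨s, hs1, hs2⟩ := mem_closure_iff_nhds.1 ht1 _ hj2
      have h3 : ∀ᶠ y in 𝓝 (s : OnePoint ℝ), m j • y = m i₀ • y := by
        filter_upwards [hs1, hs2] with y h1 h2
        rw [← h1, ← h2]
      have h4 : ∀ᶠ r : ℝ in 𝓝 s, m j • (r : OnePoint ℝ) = m i₀ • (r : OnePoint ℝ) :=
        (OnePoint.continuous_coe.tendsto s).eventually h3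
      have h5 := smul_eq_of_infinite _ _ (infinite_of_mem_nhds s h4)
      filter_upwards [hj] with y hy
      rw [hy, h5]
    exact fun t ht => hI.subset_of_closure_inter_subset hu ⟨t₀, ht₀, hi₀⟩ hcl ht
  have hc : IsClosed {x : OnePoint ℝ | f x = m i₀ • x} := isClosed_eq hf (continuous_moebius _)
  intro x hx
  refine hc.closure_subset_iff.2 ?_ hx
  rintro _ ⟨t, ht, rfl⟩
  exact (key t ht).self_of_nhds

/-- At every point, a map that is locally Moebius off a finite set takes the value of one of the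
Moebius maps of the family. -/
theorem exists_eq_at {ι : Type} (m : ι → GL (Fin 2) ℝ) (f : OnePoint ℝ → OnePoint ℝ)
    (hf : Continuous f) (B : Finset (OnePoint ℝ))
    (h : ∀ x, x ∉ B → ∃ i, ∀ᶠ y in 𝓝 x, f y = m i • y) (b : OnePoint ℝ) :
    ∃ i, f b = m i • b := by
  have hfin : ((↑) ⁻¹' (B : Set (OnePoint ℝ)) : Set ℝ).Finite :=
    B.finite_toSet.preimage OnePoint.coe_injective.injOn
  cases b with
  | infty =>
    obtain ⟨M, hM⟩ := hfin.bddAbove
    obtain ⟨i, hi⟩ := exists_eq_on_closure m f hf (Set.Ioi M) isPreconnected_Ioi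
      Set.nonempty_Ioi (fun t ht => h _ fun hB => absurd (hM hB) (not_le.2 ht))
    refine ⟨i, hi _ ?_⟩
    refine mem_closure_of_tendsto (b := atTop) (f := fun t : ℝ => (t : OnePoint ℝ))
      (tendsto_coe_infty_of_abs tendsto_abs_atTop_atTop) ?_
    filter_upwards [eventually_gt_atTop M] with t ht
    exact ⟨t, ht, rfl⟩
  | coe r =>
    have h1 : ∀ᶠ t in 𝓝[>] r, t ∉ ((↑) ⁻¹' (B : Set (OnePoint ℝ)) : Set ℝ) := by
      have h2 : (((↑) ⁻¹' (B : Set (OnePoint ℝ)) : Set ℝ) \ {r})ᶜ ∈ 𝓝 r :=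
        (hfin.sdiff.isClosed.isOpen_compl).mem_nhds (by simp)
      filter_upwards [mem_nhdsWithin_of_mem_nhds h2, self_mem_nhdsWithin] with t ht1 ht2
      intro hB
      exact ht1 ⟨hB, ne_of_gt ht2⟩
    obtain ⟨u, hu, hsub⟩ := mem_nhdsGT_iff_exists_Ioo_subset.1 h1
    obtain ⟨i, hi⟩ := exists_eq_on_closure m f hf (Set.Ioo r u) isPreconnected_Ioo
      (Set.nonempty_Ioo.2 hu) (fun t ht => h _ (hsub ht))
    refine ⟨i, hi _ ?_⟩
    refine image_closure_subset_closure_image OnePoint.continuous_coe ⟨r, ?_, rfl⟩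
    rw [closure_Ioo (ne_of_lt hu)]
    exact ⟨le_rfl, le_of_lt hu⟩

theorem rat_smul (γ : SpecialLinearGroup (Fin 2) ℤ) (x : OnePoint ℝ)
    (hx : x = ∞ ∨ ∃ q : ℚ, x = ((q : ℝ) : OnePoint ℝ)) :
    (SpecialLinearGroup.mapGL ℝ γ • x = ∞ ∨
      ∃ q : ℚ, SpecialLinearGroup.mapGL ℝ γ • x = ((q : ℝ) : OnePoint ℝ)) := by
  have h1 : ∃ c : OnePoint ℚ, x = c.map (Rat.castHom ℝ) := by
    rcases hx with rfl | ⟨q, rfl⟩
    · exact ⟨∞, rfl⟩
    · exact ⟨q, rfl⟩
  obtain ⟨c, rfl⟩ := h1
  have h2 : SpecialLinearGroup.mapGL ℝ γ =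
      (SpecialLinearGroup.mapGL ℚ γ).map (Rat.castHom ℝ) := by
    ext i j
    simp [SpecialLinearGroup.mapGL]
  rw [h2, ← OnePoint.map_smul]
  generalize SpecialLinearGroup.mapGL ℚ γ • c = d
  cases d with
  | infty => exact Or.inl rfl
  | coe q => exact Or.inr ⟨q, rfl⟩

end Pool.Agent.Lib.MP_f786e3_al
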