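import Mathlib
import Pool.Agent.Lib.MP_f786e3_al.Moebius

set_option autoImplicit false

namespace Pool.Agent.Lib.MP_f786e3_al

open OnePoint Filter Topology

/-- The points of `ℚ ∪ {∞}` on the real projective line `ℝ ∪ {∞}`. -/
def IsRationalPoint (x : OnePoint ℝ) : Prop :=
  x = ∞ ∨ ∃ q : ℚ, x = ((q : ℝ) : OnePoint ℝ)

/-- A homeomorphism of `ℝ ∪ {∞}` is piecewise `PSL₂(ℤ)` with finitely many breakpoints, all in
`ℚ ∪ {∞}`: off a finite set `B` of rational points it agrees, near every point, with the Moebius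
map of a matrix in `SL₂(ℤ)`. -/
def IsPiecewisePSL2Z (f : OnePoint ℝ ≃ₜ OnePoint ℝ) : Prop :=
  ∃ B : Finset (OnePoint ℝ), (∀ b ∈ B, IsRationalPoint b) ∧
    ∀ x, x ∉ B → ∃ γ : Matrix.SpecialLinearGroup (Fin 2) ℤ,
      ∀ᶠ y in 𝓝 x, f y = Matrix.SpecialLinearGroup.mapGL ℝ γ • y

theorem IsPiecewisePSL2Z.rat {f : OnePoint ℝ ≃ₜ OnePoint ℝ} (hf : IsPiecewisePSL2Z f)
    (x : OnePoint ℝ) : IsRationalPoint (f x) ↔ IsRationalPoint x := by
  obtain ⟨B, -, hB⟩ := hf
  obtain ⟨γ, hγ⟩ := exists_eq_at (fun γ : Matrix.SpecialLinearGroup (Fin 2) ℤ =>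
    Matrix.SpecialLinearGroup.mapGL ℝ γ) f f.continuous B hB x
  rw [hγ]
  refine ⟨fun h => ?_, fun h => rat_smul γ x h⟩
  have := rat_smul γ⁻¹ _ h
  rwa [map_inv, inv_smul_smul] at this

/-- Thompson's group `T`, as the group of all piecewise `PSL₂(ℤ)` homeomorphisms of `ℝ ∪ {∞}`
with finitely many breakpoints, all in `ℚ ∪ {∞}`. -/
def thompsonT : Subgroup (OnePoint ℝ ≃ₜ OnePoint ℝ) where
  carrier := {f | IsPiecewisePSL2Z f}
  one_mem' := ⟨∅, by simp, fun x _ => ⟨1, Eventually.of_forall fun y => by simp⟩⟩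
  mul_mem' := by
    classical
    intro f g hf hg
    obtain ⟨B, hB1, hB2⟩ := id hf
    obtain ⟨C, hC1, hC2⟩ := id hg
    refine ⟨C ∪ B.image g.symm, ?_, ?_⟩
    · intro b hb
      rcases Finset.mem_union.1 hb with h | h
      · exact hC1 b h
      · obtain ⟨c, hc, rfl⟩ := Finset.mem_image.1 h
        rw [← IsPiecewisePSL2Z.rat hg, g.apply_symm_apply]
        exact hB1 c hc
    · intro x hx
      rw [Finset.mem_union, not_or] at hx
      obtain ⟨γ, hγ⟩ := hC2 x hx.1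
      obtain ⟨δ, hδ⟩ := hB2 (g x)
        (fun h => hx.2 (Finset.mem_image.2 ⟨g x, h, g.symm_apply_apply x⟩))
      refine ⟨δ * γ, ?_⟩
      filter_upwards [hγ, (g.continuous.tendsto x).eventually hδ] with y h1 h2
      rw [map_mul, mul_smul, ← h1, ← h2]
      rfl
  inv_mem' := by
    classical
    intro f hf
    obtain ⟨B, hB1, hB2⟩ := id hf
    refine ⟨B.image f, ?_, ?_⟩
    · intro b hb
      obtain ⟨c, hc, rfl⟩ := Finset.mem_image.1 hb
      rw [IsPiecewisePSL2Z.rat hf]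
      exact hB1 c hc
    · intro x hx
      obtain ⟨γ, hγ⟩ := hB2 (f.symm x)
        (fun h => hx (Finset.mem_image.2 ⟨f.symm x, h, f.apply_symm_apply x⟩))
      refine ⟨γ⁻¹, ?_⟩
      filter_upwards [(f.symm.continuous.tendsto x).eventually hγ] with y h1
      rw [map_inv, eq_inv_smul_iff]
      rw [f.apply_symm_apply] at h1
      exact h1.symm

/-- The real function `s` of the problem. -/
noncomputable def sFun (t : ℝ) : ℝ :=
  if t ≤ 0 then t else if t ≤ 1 then 2 * t / (1 + t) else if t ≤ 2 then 2 / (3 - t) else t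

theorem sFun_of_le_zero {t : ℝ} (h : t ≤ 0) : sFun t = t := by simp [sFun, h]

theorem sFun_of_mem_01 {t : ℝ} (h0 : 0 ≤ t) (h1 : t ≤ 1) : sFun t = 2 * t / (1 + t) := by
  rcases h0.eq_or_lt with rfl | h
  · simp [sFun]
  · simp [sFun, not_le.2 h, h1]

theorem sFun_of_mem_12 {t : ℝ} (h0 : 1 ≤ t) (h1 : t ≤ 2) : sFun t = 2 / (3 - t) := by
  rcases h0.eq_or_lt with rfl | h
  · norm_num [sFun]
  · have h2 : ¬ t ≤ 0 := by linarith
    simp [sFun, not_le.2 h, h1, h2]

theorem sFun_of_two_le {t : ℝ} (h0 : 2 ≤ t) : sFun t = t := by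
  rcases h0.eq_or_lt with rfl | h
  · norm_num [sFun]
  · have h2 : ¬ t ≤ 0 := by linarith
    have h3 : ¬ t ≤ 1 := by linarith
    simp [sFun, not_le.2 h, h2, h3]

theorem strictMono_of_pieces {f : ℝ → ℝ} {a b c : ℝ} (hab : a ≤ b) (hbc : b ≤ c)
    (h1 : StrictMonoOn f (Set.Iic a)) (h2 : StrictMonoOn f (Set.Icc a b))
    (h3 : StrictMonoOn f (Set.Icc b c)) (h4 : StrictMonoOn f (Set.Ici c)) : StrictMono f := by
  have h5 := h1.union h2 isGreatest_Iic (isLeast_Icc hab)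
  rw [Set.Iic_union_Icc_eq_Iic hab] at h5
  have h6 := h5.union h3 isGreatest_Iic (isLeast_Icc hbc)
  rw [Set.Iic_union_Icc_eq_Iic hbc] at h6
  exact h6.Iic_union_Ici h4

theorem sFun_strictMono : StrictMono sFun := by
  refine strictMono_of_pieces (a := 0) (b := 1) (c := 2) zero_le_one one_le_two ?_ ?_ ?_ ?_
  · intro x hx y hy hxy
    rwa [sFun_of_le_zero hx, sFun_of_le_zero hy]
  · intro x hx y hy hxy
    rw [sFun_of_mem_01 hx.1 hx.2, sFun_of_mem_01 hy.1 hy.2,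
      div_lt_div_iff₀ (by linarith [hx.1]) (by linarith [hy.1])]
    linarith
  · intro x hx y hy hxy
    rw [sFun_of_mem_12 hx.1 hx.2, sFun_of_mem_12 hy.1 hy.2,
      div_lt_div_iff₀ (by linarith [hx.2]) (by linarith [hy.2])]
    linarith
  · intro x hx y hy hxy
    rwa [sFun_of_two_le hx, sFun_of_two_le hy]

theorem sFun_surjective : Function.Surjective sFun := by
  intro y
  by_cases h0 : y ≤ 0
  · exact ⟨y, sFun_of_le_zero h0⟩
  by_cases h1 : y ≤ 1
  · have h2 : 0 < 2 - y := by linarith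
    refine ⟨y / (2 - y), ?_⟩
    rw [sFun_of_mem_01 (div_nonneg (by linarith) h2.le) (by rw [div_le_one h2]; linarith)]
    field_simp
    ring
  by_cases h2 : y ≤ 2
  · have h3 : 0 < y := by linarith
    have h4 : 2 / y ≤ 2 := by rw [div_le_iff₀ h3]; linarith
    have h5 : 1 ≤ 2 / y := by rw [le_div_iff₀ h3]; linarith
    refine ⟨3 - 2 / y, ?_⟩
    rw [sFun_of_mem_12 (by linarith) (by linarith)]
    field_simp
    ring
  · exact ⟨y, sFun_of_two_le (by linarith)⟩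

/-- The homeomorphism `s` of `ℝ ∪ {∞}`: it fixes `∞` and acts on `ℝ` by `sFun`. -/
noncomputable def sHomeo : OnePoint ℝ ≃ₜ OnePoint ℝ :=
  (StrictMono.orderIsoOfSurjective sFun sFun_strictMono sFun_surjective).toHomeomorph.onePointCongr

theorem sHomeo_coe (t : ℝ) : sHomeo (t : OnePoint ℝ) = ((sFun t : ℝ) : OnePoint ℝ) := rfl

theorem sHomeo_infty : sHomeo ∞ = ∞ := rfl

/-- The group `S` generated by `T` and `s`. -/
def groupS : Subgroup (OnePoint ℝ ≃ₜ OnePoint ℝ) :=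
  Subgroup.closure ((thompsonT : Set (OnePoint ℝ ≃ₜ OnePoint ℝ)) ∪ {sHomeo})

/-- Relative property (T) of the pair `(G, H)`: every unitary representation of `G` on a complex
Hilbert space with almost invariant vectors has a nonzero `H`-invariant vector. -/
def HasRelativePropertyT (G : Type) [Group G] (H : Subgroup G) : Prop :=
  ∀ (E : Type) [NormedAddCommGroup E] [InnerProductSpace ℂ E] [CompleteSpace E]
    (π : G →* (E ≃ₗᵢ[ℂ] E)),
    (∀ (F : Finset G) (ε : ℝ), 0 < ε → ∃ v : E, ‖v‖ = 1 ∧ ∀ g ∈ F, ‖π g v - v‖ < ε) →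
    ∃ v : E, v ≠ 0 ∧ ∀ h ∈ H, π h v = v

end Pool.Agent.Lib.MP_f786e3_al
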