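import Mathlib
import Pool.Agent.Lib.MP_f786e3_al.Hilbert
import Pool.Agent.Lib.MP_f786e3_al.Defs

set_option autoImplicit false

namespace Pool.Agent.Lib.MP_f786e3_al

open OnePoint Filter Topology
open scoped symmDiff

/-- Sections that differ at finitely many points give finite sets of walls. -/
theorem exists_walls_of_sections {G P C : Type} [DecidableEq (P × C)] (σ : G → P → C) (e : G)
    (hfin : ∀ g h, {x | σ g x ≠ σ h x}.Finite) :
    ∃ Q : G → Finset (P × C), ∀ g h, (Q g ∆ Q h).card = 2 * {x | σ g x ≠ σ h x}.ncard := by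
  let B : G → Set (P × C) := fun g => Set.range fun x => (x, σ g x)
  have hB : ∀ g h, B g ∆ B h = (fun x => (x, σ g x)) '' {x | σ g x ≠ σ h x} ∪
      (fun x => (x, σ h x)) '' {x | σ g x ≠ σ h x} := by
    intro g h
    ext ⟨x, c⟩
    simp only [B, Set.mem_symmDiff, Set.mem_range, Prod.mk.injEq, Set.mem_union, Set.mem_image,
      Set.mem_ofPred_eq]
    constructor
    · rintro (⟨⟨y, rfl, rfl⟩, h2⟩ | ⟨⟨y, rfl, rfl⟩, h2⟩)
      · exact Or.inl ⟨y, fun h3 => h2 ⟨y, rfl, h3.symm⟩, rfl, rfl⟩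
      · exact Or.inr ⟨y, fun h3 => h2 ⟨y, rfl, h3⟩, rfl, rfl⟩
    · rintro (⟨y, h2, rfl, rfl⟩ | ⟨y, h2, rfl, rfl⟩)
      · refine Or.inl ⟨⟨y, rfl, rfl⟩, ?_⟩
        rintro ⟨z, rfl, h3⟩
        exact h2 h3.symm
      · refine Or.inr ⟨⟨y, rfl, rfl⟩, ?_⟩
        rintro ⟨z, rfl, h3⟩
        exact h2 h3
  have hBfin : ∀ g h, (B g ∆ B h).Finite := by
    intro g h
    rw [hB]
    exact ((hfin g h).image _).union ((hfin g h).image _)
  refine ⟨fun g => (hBfin g e).toFinset, fun g h => ?_⟩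
  have h1 : (((hBfin g e).toFinset ∆ (hBfin h e).toFinset : Finset (P × C)) : Set (P × C)) =
      B g ∆ B h := by
    rw [Finset.coe_symmDiff, Set.Finite.coe_toFinset, Set.Finite.coe_toFinset,
      symmDiff_symmDiff_symmDiff_comm, symmDiff_self, symmDiff_bot]
  rw [← Set.ncard_coe_finset, h1, hB, Set.ncard_union_eq _ ((hfin g h).image _)
    ((hfin g h).image _), Set.ncard_image_of_injective _ (fun a b hab => (Prod.mk.inj hab).1),
    Set.ncard_image_of_injective _ (fun a b hab => (Prod.mk.inj hab).1), two_mul]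
  rw [Set.disjoint_left]
  rintro _ ⟨y, hy, rfl⟩ ⟨z, -, hz⟩
  obtain ⟨rfl, h3⟩ := Prod.mk.inj hz
  exact hy h3.symm

/-- The points near which a homeomorphism is not a Moebius map. -/
def breaks (f : OnePoint ℝ ≃ₜ OnePoint ℝ) : Set (OnePoint ℝ) :=
  {x | ¬ ∃ γ : GL (Fin 2) ℝ, ∀ᶠ y in 𝓝 x, f y = γ • y}

/-- The group of homeomorphisms with finitely many breakpoints. -/
def ppGroup : Subgroup (OnePoint ℝ ≃ₜ OnePoint ℝ) where
  carrier := {f | (breaks f).Finite}
  one_mem' := by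
    have : breaks 1 = ∅ := by
      ext x
      simp only [breaks, Set.mem_ofPred_eq, Set.mem_empty_iff_false, iff_false, not_not]
      exact ⟨1, Eventually.of_forall fun y => by simp⟩
    simp [this]
  mul_mem' := by
    intro f g hf hg
    refine (Set.Finite.union hg (Set.Finite.preimage g.injective.injOn hf)).subset ?_
    intro x hx
    by_contra hcon
    rw [Set.mem_union, not_or] at hcon
    obtain ⟨γ, hγ⟩ := not_not.1 hcon.1
    obtain ⟨δ, hδ⟩ := not_not.1 hcon.2
    refine hx ⟨δ * γ, ?_⟩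
    filter_upwards [hγ, (g.continuous.tendsto x).eventually hδ] with y h1 h2
    rw [mul_smul, ← h1, ← h2]
    rfl
  inv_mem' := by
    intro f hf
    refine (Set.Finite.preimage f.symm.injective.injOn hf).subset ?_
    intro x hx
    by_contra hcon
    obtain ⟨γ, hγ⟩ := not_not.1 hcon
    refine hx ⟨γ⁻¹, ?_⟩
    filter_upwards [(f.symm.continuous.tendsto x).eventually hγ] with y h1
    rw [eq_inv_smul_iff]
    rw [f.apply_symm_apply] at h1
    exact h1.symm

/-- The class of the germ of the chart `g⁻¹` at `x` modulo Moebius maps. -/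
def germClass (g : OnePoint ℝ ≃ₜ OnePoint ℝ) (x : OnePoint ℝ) :
    Set (OnePoint ℝ ≃ₜ OnePoint ℝ) :=
  {k | ∃ γ : GL (Fin 2) ℝ, ∀ᶠ y in 𝓝 x, k y = γ • g.symm y}

theorem germClass_ne (g h : OnePoint ℝ ≃ₜ OnePoint ℝ) :
    {x | germClass g x ≠ germClass h x} = g '' breaks (h⁻¹ * g) := by
  ext x
  have h1 : germClass g x = germClass h x ↔
      ∃ γ : GL (Fin 2) ℝ, ∀ᶠ y in 𝓝 x, h.symm y = γ • g.symm y := by
    constructor
    · intro he
      have : h.symm ∈ germClass h x := ⟨1, Eventually.of_forall fun y => by simp⟩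
      rw [← he] at this
      exact this
    · rintro ⟨γ, hγ⟩
      ext k
      constructor
      · rintro ⟨δ, hδ⟩
        refine ⟨δ * γ⁻¹, ?_⟩
        filter_upwards [hγ, hδ] with y h1 h2
        rw [h2, h1, mul_smul, inv_smul_smul]
      · rintro ⟨δ, hδ⟩
        refine ⟨δ * γ, ?_⟩
        filter_upwards [hγ, hδ] with y h1 h2
        rw [h2, h1, mul_smul]
  have h2 : (∃ γ : GL (Fin 2) ℝ, ∀ᶠ y in 𝓝 x, h.symm y = γ • g.symm y) ↔
      ∃ γ : GL (Fin 2) ℝ, ∀ᶠ y in 𝓝 (g.symm x), (h⁻¹ * g) y = γ • y := by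
    refine exists_congr fun γ => ⟨fun hγ => ?_, fun hγ => ?_⟩
    · have h3 : Tendsto g (𝓝 (g.symm x)) (𝓝 x) := by
        simpa using g.continuous.tendsto (g.symm x)
      filter_upwards [h3.eventually hγ] with y hy
      rw [g.symm_apply_apply] at hy
      exact hy
    · filter_upwards [(g.symm.continuous.tendsto x).eventually hγ] with y hy
      have h4 : (h⁻¹ * g) (g.symm y) = h.symm (g (g.symm y)) := rfl
      rwa [h4, g.apply_symm_apply] at hy
  rw [Set.mem_ofPred_eq, Ne, h1, h2]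
  constructor
  · intro h3
    exact ⟨g.symm x, h3, g.apply_symm_apply x⟩
  · rintro ⟨z, hz, rfl⟩
    rw [g.symm_apply_apply]
    exact hz

/-- A group of piecewise projective homeomorphisms has no relative property (T) with respect to a
subgroup containing elements with arbitrarily many breakpoints. -/
theorem not_relT_of_breaks (S : Subgroup (OnePoint ℝ ≃ₜ OnePoint ℝ)) (hS : S ≤ ppGroup)
    (H : Subgroup S) (hH : ∀ N : ℕ, ∃ h ∈ H, N ≤ (breaks h.1).ncard) :
    ¬ HasRelativePropertyT S H := by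
  have hfin : ∀ g h : S, {x | germClass g.1 x ≠ germClass h.1 x}.Finite := by
    intro g h
    rw [germClass_ne]
    exact Set.Finite.image _ (hS (h⁻¹ * g).2)
  let _ : DecidableEq (OnePoint ℝ × Set (OnePoint ℝ ≃ₜ OnePoint ℝ)) :=
    fun a b => Classical.propDecidable (a = b)
  obtain ⟨Q, hQ⟩ := exists_walls_of_sections (fun (g : S) x => germClass g.1 x) 1 hfin
  have hQ' : ∀ g h : S, (Q g ∆ Q h).card = 2 * (breaks (h⁻¹ * g).1).ncard := by
    intro g h
    rw [hQ, germClass_ne, Set.ncard_image_of_injective _ g.1.injective]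
    rfl
  obtain ⟨E, i1, i2, i3, π, h1, h2⟩ := exists_rep_of_walls Q (by
    intro k g h
    have h3 : (k * h)⁻¹ * (k * g) = h⁻¹ * g := by group
    exact (hQ' (k * g) (k * h)).trans (h3 ▸ (hQ' g h).symm)) (H : Set S) (by
    intro N
    obtain ⟨h, hh, hN⟩ := hH N
    refine ⟨h, hh, ?_⟩
    have h4 := hQ' h 1
    rw [inv_one, one_mul] at h4
    have h5 : N ≤ (Q h ∆ Q 1).card := by omega
    exact h5)
  intro hT
  obtain ⟨v, hv, hv2⟩ := hT E π h1
  exact hv (h2 v hv2)

theorem eventually_eq_moebius {f : OnePoint ℝ → OnePoint ℝ} {F : ℝ → ℝ}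
    (hf : ∀ t : ℝ, f t = ((F t : ℝ) : OnePoint ℝ)) (γ : GL (Fin 2) ℝ) {a b c d : ℝ}
    (ha : γ 0 0 = a) (hb : γ 0 1 = b) (hc : γ 1 0 = c) (hd : γ 1 1 = d) {t : ℝ}
    (h : ∀ᶠ r in 𝓝 t, c * r + d ≠ 0 ∧ F r = (a * r + b) / (c * r + d)) :
    ∀ᶠ y in 𝓝 (t : OnePoint ℝ), f y = γ • y := by
  rw [OnePoint.nhds_coe_eq, eventually_map]
  filter_upwards [h] with r hr
  rw [hf, smul_some_eq_ite, ha, hb, hc, hd, if_neg hr.1, hr.2]

theorem sHomeo_mem_pp : sHomeo ∈ ppGroup := by
  refine (Set.toFinite ({∞, ((0 : ℝ) : OnePoint ℝ), ((1 : ℝ) : OnePoint ℝ),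
    ((2 : ℝ) : OnePoint ℝ)} : Set (OnePoint ℝ))).subset ?_
  intro x hx
  by_contra hcon
  apply hx
  cases x with
  | infty => simp at hcon
  | coe t =>
    simp only [Set.mem_insert_iff, coe_ne_infty, coe_eq_coe, Set.mem_singleton_iff, false_or,
      not_or] at hcon
    obtain ⟨h0, h1, h2⟩ := hcon
    rcases lt_or_gt_of_ne h0 with k0 | k0
    · refine ⟨1, eventually_eq_moebius sHomeo_coe 1 (a := 1) (b := 0) (c := 0) (d := 1)
        (by simp) (by simp) (by simp) (by simp) ?_⟩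
      filter_upwards [gt_mem_nhds k0] with r hr
      simp [sFun_of_le_zero hr.le]
    rcases lt_or_gt_of_ne h1 with k1 | k1
    · refine ⟨Matrix.GeneralLinearGroup.mkOfDetNeZero !![2, 0; 1, 1] (by simp),
        eventually_eq_moebius sHomeo_coe _ (a := 2) (b := 0) (c := 1) (d := 1)
        (by simp) (by simp) (by simp) (by simp) ?_⟩
      filter_upwards [gt_mem_nhds k1, lt_mem_nhds k0] with r hr1 hr0
      refine ⟨by linarith, ?_⟩
      rw [sFun_of_mem_01 hr0.le hr1.le]
      ring_nf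
    rcases lt_or_gt_of_ne h2 with k2 | k2
    · refine ⟨Matrix.GeneralLinearGroup.mkOfDetNeZero !![0, 2; -1, 3] (by simp),
        eventually_eq_moebius sHomeo_coe _ (a := 0) (b := 2) (c := -1) (d := 3)
        (by simp) (by simp) (by simp) (by simp) ?_⟩
      filter_upwards [gt_mem_nhds k2, lt_mem_nhds k1] with r hr1 hr0
      refine ⟨by linarith, ?_⟩
      rw [sFun_of_mem_12 hr0.le hr1.le]
      ring_nf
    · refine ⟨1, eventually_eq_moebius sHomeo_coe 1 (a := 1) (b := 0) (c := 0) (d := 1)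
        (by simp) (by simp) (by simp) (by simp) ?_⟩
      filter_upwards [lt_mem_nhds k2] with r hr
      simp [sFun_of_two_le hr.le]

theorem groupS_le_pp : groupS ≤ ppGroup := by
  refine (Subgroup.closure_le _).2 ?_
  rintro f (hf | hf)
  · obtain ⟨B, -, hB⟩ := hf
    refine B.finite_toSet.subset fun x hx => ?_
    by_contra hcon
    obtain ⟨γ, hγ⟩ := hB x hcon
    exact hx ⟨_, hγ⟩
  · rw [Set.mem_singleton_iff.1 hf]
    exact sHomeo_mem_pp

end Pool.Agent.Lib.MP_f786e3_al
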