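import Mathlib
import Pool.Agent.Lib.MP_f786e3_al.Breaks

set_option autoImplicit false

namespace Pool.Agent.Lib.MP_f786e3_al

open OnePoint Filter Topology

/-- A piecewise `PSL₂(ℤ)` map supported in `[0, 1]`. -/
noncomputable def uFun (t : ℝ) : ℝ :=
  if t ≤ 0 then t else if t ≤ 1 / 3 then t / (1 - t) else if t ≤ 1 / 2 then (4 * t - 1) / (5 * t - 1)
  else if t ≤ 1 then 1 / (2 - t) else t

theorem uFun_1 {t : ℝ} (h : t ≤ 0) : uFun t = t := by simp [uFun, h]

theorem uFun_2 {t : ℝ} (h0 : 0 ≤ t) (h1 : t ≤ 1 / 3) : uFun t = t / (1 - t) := by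
  unfold uFun
  rcases h0.eq_or_lt with rfl | h
  · simp
  · rw [if_neg (not_le.2 h), if_pos h1]

theorem uFun_3 {t : ℝ} (h0 : 1 / 3 ≤ t) (h1 : t ≤ 1 / 2) :
    uFun t = (4 * t - 1) / (5 * t - 1) := by
  unfold uFun
  rcases h0.eq_or_lt with rfl | h
  · norm_num
  · rw [if_neg (by linarith), if_neg (not_le.2 h), if_pos h1]

theorem uFun_4 {t : ℝ} (h0 : 1 / 2 ≤ t) (h1 : t ≤ 1) : uFun t = 1 / (2 - t) := by
  unfold uFun
  rcases h0.eq_or_lt with rfl | h
  · norm_num
  · rw [if_neg (by linarith), if_neg (by linarith), if_neg (not_le.2 h), if_pos h1]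

theorem uFun_5 {t : ℝ} (h0 : 1 ≤ t) : uFun t = t := by
  unfold uFun
  rcases h0.eq_or_lt with rfl | h
  · norm_num
  · rw [if_neg (by linarith), if_neg (by linarith), if_neg (by linarith), if_neg (not_le.2 h)]

theorem uFun_strictMono : StrictMono uFun := by
  have h1 : StrictMonoOn uFun (Set.Iic 0) := by
    intro x hx y hy hxy
    rwa [uFun_1 hx, uFun_1 hy]
  have h2 : StrictMonoOn uFun (Set.Icc 0 (1 / 3)) := by
    intro x hx y hy hxy
    rw [uFun_2 hx.1 hx.2, uFun_2 hy.1 hy.2,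
      div_lt_div_iff₀ (by linarith [hx.2]) (by linarith [hy.2])]
    linarith
  have h5 := h1.union h2 isGreatest_Iic (isLeast_Icc (by norm_num))
  rw [Set.Iic_union_Icc_eq_Iic (by norm_num)] at h5
  refine strictMono_of_pieces (a := 1 / 3) (b := 1 / 2) (c := 1) (by norm_num) (by norm_num)
    h5 ?_ ?_ ?_
  · intro x hx y hy hxy
    rw [uFun_3 hx.1 hx.2, uFun_3 hy.1 hy.2,
      div_lt_div_iff₀ (by linarith [hx.1]) (by linarith [hy.1])]
    linarith
  · intro x hx y hy hxy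
    rw [uFun_4 hx.1 hx.2, uFun_4 hy.1 hy.2,
      div_lt_div_iff₀ (by linarith [hx.2]) (by linarith [hy.2])]
    linarith
  · intro x hx y hy hxy
    rwa [uFun_5 hx, uFun_5 hy]

theorem uFun_surjective : Function.Surjective uFun := by
  intro y
  by_cases h0 : y ≤ 0
  · exact ⟨y, uFun_1 h0⟩
  by_cases h1 : y ≤ 1 / 2
  · have h2 : 0 < 1 + y := by linarith
    refine ⟨y / (1 + y), ?_⟩
    rw [uFun_2 (div_nonneg (by linarith) h2.le) (by rw [div_le_iff₀ h2]; linarith)]
    field_simp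
    ring
  by_cases h2 : y ≤ 2 / 3
  · have h3 : 0 < 4 - 5 * y := by linarith
    refine ⟨(1 - y) / (4 - 5 * y), ?_⟩
    have h4 : 1 / 3 ≤ (1 - y) / (4 - 5 * y) := by rw [le_div_iff₀ h3]; linarith
    rw [uFun_3 h4 (by rw [div_le_iff₀ h3]; linarith), div_eq_iff (by linarith)]
    have h5 : (1 - y) / (4 - 5 * y) * (4 - 5 * y) = 1 - y := div_mul_cancel₀ _ h3.ne'
    linear_combination h5
  by_cases h3 : y ≤ 1
  · have h4 : 0 < y := by linarith
    have h5 : 1 / y ≤ 3 / 2 := by rw [div_le_iff₀ h4]; linarith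
    have h6 : 1 ≤ 1 / y := by rw [le_div_iff₀ h4]; linarith
    refine ⟨2 - 1 / y, ?_⟩
    rw [uFun_4 (by linarith) (by linarith)]
    field_simp
    ring
  · exact ⟨y, uFun_5 (by linarith)⟩

theorem lt_uFun {t : ℝ} (h0 : 0 < t) (h1 : t < 1) : t < uFun t := by
  by_cases h2 : t ≤ 1 / 3
  · rw [uFun_2 h0.le h2, lt_div_iff₀ (by linarith)]
    nlinarith
  by_cases h3 : t ≤ 1 / 2
  · rw [uFun_3 (by linarith) h3, lt_div_iff₀ (by linarith)]
    nlinarith
  · rw [uFun_4 (by linarith) h1.le, lt_div_iff₀ (by linarith)]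
    nlinarith

theorem le_uFun (t : ℝ) : t ≤ uFun t := by
  by_cases h0 : t ≤ 0
  · rw [uFun_1 h0]
  by_cases h1 : 1 ≤ t
  · rw [uFun_5 h1]
  · exact (lt_uFun (not_le.1 h0) (not_le.1 h1)).le

/-- The homeomorphism of the projective line given by `uFun`. -/
noncomputable def uHomeo : OnePoint ℝ ≃ₜ OnePoint ℝ :=
  (StrictMono.orderIsoOfSurjective uFun uFun_strictMono uFun_surjective).toHomeomorph.onePointCongr

theorem uHomeo_coe (t : ℝ) : uHomeo (t : OnePoint ℝ) = ((uFun t : ℝ) : OnePoint ℝ) := rfl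

theorem eventually_eq_SL2Z {f : OnePoint ℝ → OnePoint ℝ} {F : ℝ → ℝ}
    (hf : ∀ t : ℝ, f t = ((F t : ℝ) : OnePoint ℝ)) (a b c d : ℤ) (hdet : a * d - b * c = 1) {t : ℝ}
    (h : ∀ᶠ r in 𝓝 t, (c : ℝ) * r + d ≠ 0 ∧ F r = (a * r + b) / (c * r + d)) :
    ∃ γ : Matrix.SpecialLinearGroup (Fin 2) ℤ,
      ∀ᶠ y in 𝓝 (t : OnePoint ℝ), f y = Matrix.SpecialLinearGroup.mapGL ℝ γ • y := by
  refine ⟨⟨!![a, b; c, d], by rw [Matrix.det_fin_two_of]; exact hdet⟩,
    eventually_eq_moebius hf _ ?_ ?_ ?_ ?_ h⟩ <;>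
  simp [Matrix.SpecialLinearGroup.mapGL]

theorem uHomeo_mem : uHomeo ∈ thompsonT := by
  classical
  refine ⟨{∞, ((0 : ℝ) : OnePoint ℝ), ((1 / 3 : ℝ) : OnePoint ℝ), ((1 / 2 : ℝ) : OnePoint ℝ),
    ((1 : ℝ) : OnePoint ℝ)}, ?_, ?_⟩
  · intro b hb
    simp only [Finset.mem_insert, Finset.mem_singleton] at hb
    rcases hb with rfl | rfl | rfl | rfl | rfl
    · exact Or.inl rfl
    · exact Or.inr ⟨0, by simp⟩
    · exact Or.inr ⟨1 / 3, by simp⟩
    · exact Or.inr ⟨1 / 2, by simp⟩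
    · exact Or.inr ⟨1, by simp⟩
  · intro x hcon
    cases x with
    | infty => simp at hcon
    | coe t =>
      simp only [Finset.mem_insert, coe_ne_infty, coe_eq_coe, Finset.mem_singleton, false_or,
        not_or] at hcon
      obtain ⟨h0, h1, h2, h3⟩ := hcon
      rcases lt_or_gt_of_ne h0 with k0 | k0
      · refine eventually_eq_SL2Z uHomeo_coe 1 0 0 1 (by norm_num) ?_
        filter_upwards [gt_mem_nhds k0] with r hr
        simp [uFun_1 hr.le]
      rcases lt_or_gt_of_ne h1 with k1 | k1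
      · refine eventually_eq_SL2Z uHomeo_coe 1 0 (-1) 1 (by norm_num) ?_
        filter_upwards [gt_mem_nhds k1, lt_mem_nhds k0] with r hr1 hr0
        push_cast
        refine ⟨by linarith, ?_⟩
        rw [uFun_2 hr0.le hr1.le]
        ring_nf
      rcases lt_or_gt_of_ne h2 with k2 | k2
      · refine eventually_eq_SL2Z uHomeo_coe 4 (-1) 5 (-1) (by norm_num) ?_
        filter_upwards [gt_mem_nhds k2, lt_mem_nhds k1] with r hr1 hr0
        push_cast
        refine ⟨by linarith, ?_⟩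
        rw [uFun_3 hr0.le hr1.le]
        ring_nf
      rcases lt_or_gt_of_ne h3 with k3 | k3
      · refine eventually_eq_SL2Z uHomeo_coe 0 1 (-1) 2 (by norm_num) ?_
        filter_upwards [gt_mem_nhds k3, lt_mem_nhds k2] with r hr1 hr0
        push_cast
        refine ⟨by linarith, ?_⟩
        rw [uFun_4 hr0.le hr1.le]
        ring_nf
      · refine eventually_eq_SL2Z uHomeo_coe 1 0 0 1 (by norm_num) ?_
        filter_upwards [lt_mem_nhds k3] with r hr
        simp [uFun_5 hr.le]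

/-- The translation by two. -/
noncomputable def tauHomeo : OnePoint ℝ ≃ₜ OnePoint ℝ :=
  (Homeomorph.addRight (2 : ℝ)).onePointCongr

theorem tauHomeo_coe (t : ℝ) : tauHomeo (t : OnePoint ℝ) = ((t + 2 : ℝ) : OnePoint ℝ) := rfl

theorem tauHomeo_inv_coe (t : ℝ) : tauHomeo⁻¹ (t : OnePoint ℝ) = ((t - 2 : ℝ) : OnePoint ℝ) := by
  have : tauHomeo ((t - 2 : ℝ) : OnePoint ℝ) = t := by rw [tauHomeo_coe, sub_add_cancel]
  rw [← this]
  exact tauHomeo.symm_apply_apply _

theorem tauHomeo_mem : tauHomeo ∈ thompsonT := by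
  refine ⟨{∞}, by simp [IsRationalPoint], ?_⟩
  intro x hcon
  cases x with
  | infty => simp at hcon
  | coe t =>
    refine eventually_eq_SL2Z tauHomeo_coe 1 2 0 1 (by norm_num) (Eventually.of_forall fun r => ?_)
    simp

theorem exists_product (n : ℕ) : ∃ w ∈ thompsonT, ∃ W : ℝ → ℝ,
    (∀ t : ℝ, w (t : OnePoint ℝ) = ((W t : ℝ) : OnePoint ℝ)) ∧ (∀ t, t ≤ W t) ∧
    (∀ t, t ≤ 0 → W t = t) ∧
    ∀ j : ℕ, j < n → (∀ t : ℝ, 2 * j - 1 < t → t ≤ 2 * j → W t = t) ∧
      (∀ t : ℝ, 2 * j < t → t < 2 * j + 1 → W t ≠ t) := by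
  induction n with
  | zero => exact ⟨1, one_mem _, id, fun t => rfl, fun t => le_rfl, fun t _ => rfl,
      fun j hj => absurd hj (Nat.not_lt_zero j)⟩
  | succ n ih =>
    obtain ⟨w, hw, W, h1, h2, h3, h4⟩ := ih
    refine ⟨uHomeo * tauHomeo * w * tauHomeo⁻¹,
      mul_mem (mul_mem (mul_mem uHomeo_mem tauHomeo_mem) hw) (inv_mem tauHomeo_mem),
      fun t => uFun (W (t - 2) + 2), ?_, ?_, ?_, ?_⟩
    · intro t
      show uHomeo (tauHomeo (w (tauHomeo⁻¹ (t : OnePoint ℝ)))) = _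
      rw [tauHomeo_inv_coe, h1, tauHomeo_coe, uHomeo_coe]
    · intro t
      have := le_uFun (W (t - 2) + 2)
      have := h2 (t - 2)
      linarith
    · intro t ht
      show uFun (W (t - 2) + 2) = t
      rw [h3 _ (by linarith), sub_add_cancel, uFun_1 ht]
    · intro j hj
      cases j with
      | zero =>
        simp only [Nat.cast_zero, mul_zero, zero_sub, zero_add]
        constructor
        · intro t _ ht
          rw [h3 _ (by linarith), sub_add_cancel, uFun_1 ht]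
        · intro t ht0 ht1
          rw [h3 _ (by linarith), sub_add_cancel]
          exact (lt_uFun ht0 ht1).ne'
      | succ j =>
        obtain ⟨h5, h6⟩ := h4 j (Nat.lt_of_succ_lt_succ hj)
        have hj0 : (0 : ℝ) ≤ j := Nat.cast_nonneg j
        push_cast
        constructor
        · intro t ht0 ht1
          rw [h5 _ (by linarith) (by linarith), sub_add_cancel, uFun_5 (by linarith)]
        · intro t ht0 ht1
          have h7 := h2 (t - 2)
          rw [uFun_5 (by linarith)]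
          intro h8
          exact h6 (t - 2) (by linarith) (by linarith) (by linarith)

theorem exists_many_breaks (n : ℕ) : ∃ w ∈ thompsonT, n ≤ (breaks w).ncard := by
  obtain ⟨w, hw, W, h1, -, -, h4⟩ := exists_product n
  refine ⟨w, hw, ?_⟩
  have hfin : (breaks w).Finite :=
    groupS_le_pp (Subgroup.subset_closure (Or.inl hw))
  have hsub : (fun j : ℕ => (((2 * j : ℝ)) : OnePoint ℝ)) '' (Finset.range n : Set ℕ) ⊆
      breaks w := by
    rintro _ ⟨j, hj, rfl⟩ ⟨γ, hγ⟩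
    obtain ⟨h5, h6⟩ := h4 j (by simpa using hj)
    have h7 : ∀ᶠ r : ℝ in 𝓝 (2 * j : ℝ), w r = γ • (r : OnePoint ℝ) :=
      (OnePoint.continuous_coe.tendsto _).eventually hγ
    obtain ⟨l, u, hlu, hsub⟩ := mem_nhds_iff_exists_Ioo_subset.1 h7
    have h8 : ∀ x : OnePoint ℝ, γ • x = x := by
      refine smul_eq_self_of_infinite γ ((Set.Ioo_infinite
        (show max l (2 * j - 1 : ℝ) < 2 * j from max_lt hlu.1 (by linarith))).mono ?_)
      intro t ht
      have h9 : w t = γ • (t : OnePoint ℝ) :=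
        hsub ⟨(le_max_left _ _).trans_lt ht.1, ht.2.trans hlu.2⟩
      show γ • (t : OnePoint ℝ) = t
      rw [← h9, h1, h5 t ((le_max_right _ _).trans_lt ht.1) ht.2.le]
    obtain ⟨t, ht1, ht2⟩ := exists_between
      (show (2 * j : ℝ) < min u (2 * j + 1) from lt_min hlu.2 (by linarith))
    have h9 : w t = γ • (t : OnePoint ℝ) :=
      hsub ⟨hlu.1.trans ht1, ht2.trans_le (min_le_left _ _)⟩
    rw [h8, h1, coe_eq_coe] at h9
    exact h6 t ht1 (ht2.trans_le (min_le_right _ _)) h9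
  have h10 := Set.ncard_le_ncard hsub hfin
  rwa [Set.ncard_image_of_injective, Set.ncard_coe_finset, Finset.card_range] at h10
  intro a b hab
  simpa using hab

end Pool.Agent.Lib.MP_f786e3_al
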