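import Mathlib
import Pool.Agent.Lib.MP_f786e3_al.Hilbert

set_option autoImplicit false

namespace Pool.Agent.Lib.MP_f786e3_al

open scoped InnerProductSpace ComplexOrder
open MeasureTheory Matrix

/-- The Gromov product on the real line is a positive semidefinite kernel. -/
theorem gromov_real {ι : Type} (s : Finset ι) (c a : ι → ℝ) :
    0 ≤ ∑ i ∈ s, ∑ j ∈ s, c i * (|a i| + |a j| - |a i - a j|) * c j := by
  have h1 := posSemidef_matrix_measure_inter (μ := (volume : Measure ℝ))
    (s := fun i : s => Set.uIoc 0 (a i)) (fun _ => measurableSet_uIoc)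
    (fun _ => by simp [Set.uIoc])
  have h2 := h1.dotProduct_mulVec_nonneg (fun i : s => c i)
  have h3 : ∀ x y : ℝ, (volume : Measure ℝ).real (Set.uIoc 0 x ∩ Set.uIoc 0 y) =
      (|x| + |y| - |x - y|) / 2 := by
    intro x y
    rw [Set.uIoc, Set.uIoc, Set.Ioc_inter_Ioc, Real.volume_real_Ioc]
    rcases le_total 0 x with hx | hx <;> rcases le_total 0 y with hy | hy <;>
      rcases le_total x y with hxy | hxy <;>
      simp only [abs_of_nonneg, abs_of_nonpos, hx, hy, hxy, sub_nonneg, sub_nonpos, inf_of_le_left,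
        inf_of_le_right, sup_of_le_left, sup_of_le_right, sup_idem, inf_idem] <;>
      first
        | linarith
        | (rw [max_eq_left (by linarith)]; linarith)
  simp only [dotProduct, mulVec, of_apply, h3, star_trivial, Finset.mul_sum] at h2
  rw [← Finset.sum_coe_sort s]
  simp_rw [← Finset.sum_coe_sort s]
  have h4 := mul_nonneg (by norm_num : (0 : ℝ) ≤ 2) h2
  simp only [Finset.mul_sum] at h4
  refine h4.trans_eq (Finset.sum_congr rfl fun i _ => Finset.sum_congr rfl fun j _ => ?_)
  ring

theorem posSemidef_of_sum {ι : Type} (M : ι → ι → ℝ) (hs : ∀ i j, M i j = M j i)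
    (h : ∀ (s : Finset ι) (c : ι → ℝ), 0 ≤ ∑ i ∈ s, ∑ j ∈ s, c i * M i j * c j) :
    (Matrix.of M).PosSemidef := by
  refine ⟨?_, fun x => ?_⟩
  · ext i j
    simp [hs i j]
  · simpa [Finsupp.sum] using h x.support x

theorem sum_of_posSemidef {ι : Type} {M : Matrix ι ι ℝ} (hM : M.PosSemidef)
    (s : Finset ι) (c : ι → ℝ) : 0 ≤ ∑ i ∈ s, ∑ j ∈ s, c i * M i j * c j := by
  have h2 := (hM.submatrix ((↑) : s → ι)).dotProduct_mulVec_nonneg (fun i : s => c i)
  simp only [dotProduct, mulVec, submatrix_apply, star_trivial, Finset.mul_sum] at h2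
  rw [← Finset.sum_coe_sort s]
  simp_rw [← Finset.sum_coe_sort s]
  refine h2.trans_eq (Finset.sum_congr rfl fun i _ => Finset.sum_congr rfl fun j _ => ?_)
  ring

/-- The entrywise exponential of a positive semidefinite kernel is positive semidefinite. -/
theorem posSemidef_exp {ι : Type} {M : Matrix ι ι ℝ} (hM : M.PosSemidef) :
    (Matrix.of fun i j => Real.exp (M i j)).PosSemidef := by
  have hs : ∀ i j, M i j = M j i := fun i j => by simpa using (hM.1.apply i j).symm
  have hpow : ∀ n : ℕ, (Matrix.of fun i j => M i j ^ n).PosSemidef := by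
    intro n
    induction n with
    | zero =>
      refine posSemidef_of_sum _ (fun _ _ => by simp) fun s c => ?_
      simp only [pow_zero, mul_one]
      rw [← Finset.sum_mul_sum]
      exact mul_self_nonneg _
    | succ n ih =>
      have h5 : (Matrix.of fun i j => M i j ^ (n + 1)) = (Matrix.of fun i j => M i j ^ n) ⊙ M := by
        ext i j
        simp [pow_succ]
      rw [h5]
      exact ih.hadamard hM
  refine posSemidef_of_sum _ (fun i j => by rw [hs]) fun s c => ?_
  have h1 : HasSum (fun n : ℕ => ∑ i ∈ s, ∑ j ∈ s, c i * (M i j ^ n / n.factorial) * c j)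
      (∑ i ∈ s, ∑ j ∈ s, c i * Real.exp (M i j) * c j) := by
    refine hasSum_sum fun i _ => hasSum_sum fun j _ => ?_
    rw [Real.exp_eq_exp_ℝ]
    exact ((NormedSpace.expSeries_div_hasSum_exp (M i j)).mul_left _).mul_right _
  refine h1.nonneg fun n => ?_
  have h2 := div_nonneg (sum_of_posSemidef (hpow n) s c) (Nat.cast_nonneg (α := ℝ) n.factorial)
  simp only [of_apply, Finset.sum_div] at h2
  refine h2.trans_eq (Finset.sum_congr rfl fun i _ => Finset.sum_congr rfl fun j _ => ?_)
  ring

/-- The exponential of minus the distance in `L¹` is a positive semidefinite kernel. -/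
theorem posSemidef_exp_L1 {ι α : Type} [MeasurableSpace α] (μ : Measure α) (v : ι → α → ℝ)
    (hv : ∀ i, Integrable (v i) μ) :
    (Matrix.of fun i j => Real.exp (-∫ t, |v i t - v j t| ∂μ)).PosSemidef := by
  let w : ι → ℝ := fun i => ∫ t, |v i t| ∂μ
  let K : ι → ι → ℝ := fun i j => ∫ t, |v i t - v j t| ∂μ
  have hK : ∀ i j, K i j = K j i := fun i j => by simp only [K, abs_sub_comm]
  have hint : ∀ i j, Integrable (fun t => |v i t| + |v j t| - |v i t - v j t|) μ :=
    fun i j => ((hv i).abs.add (hv j).abs).sub ((hv i).sub (hv j)).abs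
  have hB : (Matrix.of fun i j => w i + w j - K i j).PosSemidef := by
    refine posSemidef_of_sum _ (fun i j => by rw [hK, add_comm]) fun s c => ?_
    have h1 : ∀ i j, c i * (w i + w j - K i j) * c j =
        ∫ t, c i * (|v i t| + |v j t| - |v i t - v j t|) * c j ∂μ := by
      intro i j
      have h5 : Integrable (fun t => |v i t| + |v j t|) μ := (hv i).abs.add (hv j).abs
      have h6 : Integrable (fun t => |v i t - v j t|) μ := ((hv i).sub (hv j)).abs
      rw [integral_mul_const, integral_const_mul, integral_sub h5 h6,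
        integral_add (hv i).abs (hv j).abs]
    simp_rw [h1]
    have h2 : ∀ i, ∑ j ∈ s, ∫ t, c i * (|v i t| + |v j t| - |v i t - v j t|) * c j ∂μ =
        ∫ t, ∑ j ∈ s, c i * (|v i t| + |v j t| - |v i t - v j t|) * c j ∂μ := fun i =>
      (integral_finsetSum s fun j _ => ((hint i j).const_mul _).mul_const _).symm
    simp_rw [h2]
    rw [← integral_finsetSum s fun i _ =>
      integrable_finsetSum s fun j _ => ((hint i j).const_mul _).mul_const _]
    exact integral_nonneg fun t => gromov_real s c fun i => v i t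
  refine posSemidef_of_sum _ (fun i j => by
    show Real.exp (-K i j) = Real.exp (-K j i)
    rw [hK]) fun s c => ?_
  have h3 := sum_of_posSemidef (posSemidef_exp hB) s fun i => c i * Real.exp (-w i)
  refine h3.trans_eq (Finset.sum_congr rfl fun i _ => Finset.sum_congr rfl fun j _ => ?_)
  show c i * Real.exp (-w i) * Real.exp (w i + w j - K i j) * (c j * Real.exp (-w j)) =
    c i * Real.exp (-K i j) * c j
  have h4 : Real.exp (-K i j) = Real.exp (-w i) * Real.exp (w i + w j - K i j) *
      Real.exp (-w j) := by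
    rw [← Real.exp_add, ← Real.exp_add]
    congr 1
    ring
  rw [h4]
  ring

/-- A real positive semidefinite kernel is the Gram matrix of a family of vectors in a complex
Hilbert space. -/
theorem exists_gram {ι : Type} (M : Matrix ι ι ℝ) (hM : M.PosSemidef) :
    ∃ (E : Type) (_ : NormedAddCommGroup E) (_ : InnerProductSpace ℂ E) (_ : CompleteSpace E)
      (ξ : ι → E), ∀ i j, ⟪ξ i, ξ j⟫_ℂ = ((M i j : ℝ) : ℂ) := by
  have hs : ∀ i j, M i j = M j i := fun i j => by simpa using (hM.1.apply i j).symm
  let core : PreInnerProductSpace.Core ℂ (ι →₀ ℂ) :=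
    { inner := fun f g => f.sum fun i z => g.sum fun j w => (starRingEnd ℂ) z * (M i j : ℂ) * w
      conj_inner_symm := by
        intro f g
        rw [Finsupp.sum_comm]
        simp only [map_finsuppSum, map_mul, Complex.conj_conj, Complex.conj_ofReal]
        refine Finsupp.sum_congr fun i _ => Finsupp.sum_congr fun j _ => ?_
        rw [hs i j]
        ring
      re_inner_nonneg := by
        intro f
        have h1 := sum_of_posSemidef hM f.support fun i => (f i).re
        have h2 := sum_of_posSemidef hM f.support fun i => (f i).im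
        have h3 := add_nonneg h1 h2
        simp only [Finsupp.sum, RCLike.re_to_complex, Complex.re_sum]
        rw [← Finset.sum_add_distrib] at h3
        refine h3.trans_eq (Finset.sum_congr rfl fun i _ => ?_)
        rw [← Finset.sum_add_distrib]
        refine Finset.sum_congr rfl fun j _ => ?_
        simp
      add_left := by
        intro f g h
        rw [Finsupp.sum_add_index'] <;> simp [← Finsupp.sum_add, add_mul]
      smul_left := by
        intro f g r
        rw [Finsupp.sum_smul_index] <;> simp [Finsupp.mul_sum, ← mul_assoc] }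
  let i1 : SeminormedAddCommGroup (ι →₀ ℂ) :=
    InnerProductSpace.Core.toSeminormedAddCommGroup (𝕜 := ℂ) (c := core)
  let i2 : InnerProductSpace ℂ (ι →₀ ℂ) := InnerProductSpace.ofCore core
  refine ⟨UniformSpace.Completion (ι →₀ ℂ), inferInstance, inferInstance, inferInstance,
    fun i => ((Finsupp.single i (1 : ℂ) : ι →₀ ℂ) : UniformSpace.Completion (ι →₀ ℂ)),
    fun i j => ?_⟩
  rw [UniformSpace.Completion.inner_coe]
  show (Finsupp.single i (1 : ℂ)).sum (fun i z => (Finsupp.single j (1 : ℂ)).sum
    fun j w => (starRingEnd ℂ) z * (M i j : ℂ) * w) = _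
  simp

/-- A left invariant `L¹` distance that is unbounded on `H` gives a unitary representation
with almost invariant vectors and without nonzero vectors fixed by `H`. -/
theorem exists_rep_of_L1 {G α : Type} [Group G] [MeasurableSpace α] (μ : Measure α)
    (u : G → α → ℝ) (hu : ∀ g, Integrable (u g) μ)
    (hinv : ∀ k g h : G, ∫ t, |u (k * g) t - u (k * h) t| ∂μ = ∫ t, |u g t - u h t| ∂μ)
    (H : Set G) (hH : ∀ N : ℕ, ∃ h ∈ H, (N : ℝ) ≤ ∫ t, |u h t - u 1 t| ∂μ) :
    ∃ (E : Type) (_ : NormedAddCommGroup E) (_ : InnerProductSpace ℂ E) (_ : CompleteSpace E)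
      (π : G →* (E ≃ₗᵢ[ℂ] E)),
      (∀ (F : Finset G) (ε : ℝ), 0 < ε → ∃ v : E, ‖v‖ = 1 ∧ ∀ g ∈ F, ‖π g v - v‖ < ε) ∧
      ∀ v : E, (∀ h ∈ H, π h v = v) → v = 0 := by
  classical
  let K : G → G → ℝ := fun g h => ∫ t, |u g t - u h t| ∂μ
  have hK0 : ∀ g, K g g = 0 := fun g => by simp [K]
  have hKtri : ∀ a b c, K a c ≤ K a b + K b c := by
    intro a b c
    have h1 : Integrable (fun t => |u a t - u b t|) μ := ((hu a).sub (hu b)).abs
    have h2 : Integrable (fun t => |u b t - u c t|) μ := ((hu b).sub (hu c)).abs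
    have h3 : Integrable (fun t => |u a t - u c t|) μ := ((hu a).sub (hu c)).abs
    simp only [K]
    rw [← integral_add h1 h2]
    exact integral_mono h3 (h1.add h2) fun t => abs_sub_le _ _ _
  let r : ℕ → ℝ := fun n => 1 / ((n : ℝ) + 1)
  have hr0 : ∀ n, 0 < r n := fun n => by positivity
  have hrlim : Filter.Tendsto r Filter.atTop (nhds 0) := tendsto_one_div_add_atTop_nhds_zero_nat
  have hP1 := posSemidef_exp_L1 μ (fun (p : ℕ × G) t => r p.1 * u p.2 t)
    (fun p => (hu p.2).const_mul _)
  have hP2 : ((1 : Matrix ℕ ℕ ℝ).submatrix (Prod.fst : ℕ × G → ℕ) Prod.fst).PosSemidef :=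
    PosSemidef.one.submatrix _
  obtain ⟨E₀, j1, j2, j3, ξ, hξ0⟩ := exists_gram _ (hP2.hadamard hP1)
  have hξ : ∀ n m a b, ⟪ξ (n, a), ξ (m, b)⟫_ℂ =
      if n = m then ((Real.exp (-(r n * K a b)) : ℝ) : ℂ) else 0 := by
    intro n m a b
    rw [hξ0]
    by_cases h : n = m
    · subst h
      have h1 : ∫ t, |r n * u a t - r n * u b t| ∂μ = r n * K a b := by
        simp only [K]
        rw [← integral_const_mul]
        congr 1
        ext t
        rw [← mul_sub, abs_mul, abs_of_pos (hr0 n)]
      simp [h1]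
    · simp [h]
  let act : MulAction G (ℕ × G) :=
    { smul := fun g p => (p.1, g * p.2)
      one_smul := fun p => Prod.ext rfl (one_mul p.2)
      mul_smul := fun a b p => Prod.ext rfl (mul_assoc a b p.2) }
  have hact : ∀ (g : G) (n : ℕ) (h : G), g • ((n, h) : ℕ × G) = (n, g * h) := fun _ _ _ => rfl
  have hKinv : ∀ k g h, K (k * g) (k * h) = K g h := hinv
  obtain ⟨E, i1, i2, i3, π, η, hη, hπ, hdense⟩ :=
    exists_rep_of_gram (G := G) ξ (by
      rintro g ⟨n, a⟩ ⟨m, b⟩
      rw [hact, hact]
      simp only [hξ, hKinv])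
  have hη' : ∀ n m a b, ⟪η (n, a), η (m, b)⟫_ℂ =
      if n = m then ((Real.exp (-(r n * K a b)) : ℝ) : ℂ) else 0 := by
    intro n m a b
    rw [hη, hξ]
  have hnorm : ∀ p, ‖η p‖ = 1 := by
    rintro ⟨n, a⟩
    rw [@norm_eq_sqrt_re_inner ℂ, hη']
    simp [hK0]
  refine ⟨E, i1, i2, i3, π, ?_, ?_⟩
  · intro F ε hε
    have hev : ∀ᶠ n in Filter.atTop, ∀ g ∈ F, 2 - 2 * Real.exp (-(r n * K g 1)) < ε ^ 2 := by
      rw [Filter.eventually_all_finset]
      intro g _
      have h1 := (tendsto_const_nhds (x := (2 : ℝ))).sub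
        (((Real.continuous_exp.tendsto _).comp (hrlim.mul_const (K g 1)).neg).const_mul 2)
      simp only [zero_mul, neg_zero, Real.exp_zero, mul_one, sub_self] at h1
      exact h1.eventually (gt_mem_nhds (by positivity))
    obtain ⟨n, hn⟩ := hev.exists
    refine ⟨η (n, 1), hnorm _, fun g hg => ?_⟩
    rw [hπ, hact, mul_one]
    refine lt_of_pow_lt_pow_left₀ 2 hε.le ?_
    rw [@norm_sub_sq ℂ, hnorm, hnorm, hη', if_pos rfl]
    have := hn g hg
    simp only [RCLike.re_to_complex, Complex.ofReal_re]
    linarith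
  · intro v hv
    choose t ht hQt using hH
    have hweak : ∀ (p : ℕ × G) (w : E), w ∈ Submodule.span ℂ (Set.range η) →
        Filter.Tendsto (fun N => ⟪η (t N • p), w⟫_ℂ) Filter.atTop (nhds 0) := by
      rintro ⟨n, a⟩ w hw
      refine Submodule.span_induction
        (p := fun w _ => Filter.Tendsto (fun N => ⟪η (t N • (n, a)), w⟫_ℂ) Filter.atTop (nhds 0))
        ?_ ?_ ?_ ?_ hw
      · rintro _ ⟨⟨m, b⟩, rfl⟩
        simp only [hact, hη']
        by_cases h : n = m
        · simp only [if_pos h]
          have hc : Filter.Tendsto (fun N => K (t N * a) b) Filter.atTop Filter.atTop := by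
            refine Filter.tendsto_atTop_mono (f := fun N : ℕ => (N : ℝ) + -(K 1 a + K b 1))
              (fun N => ?_) (Filter.tendsto_atTop_add_const_right _ _ tendsto_natCast_atTop_atTop)
            have h1 : (N : ℝ) ≤ K (t N) 1 := hQt N
            have h2 := hKtri (t N) (t N * a) 1
            have h3 := hKtri (t N * a) b 1
            have h4 := hKinv (t N) 1 a
            rw [mul_one] at h4
            linarith
          have h5 := Real.tendsto_exp_neg_atTop_nhds_zero.comp (hc.const_mul_atTop (hr0 n))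
          have h6 := (Complex.continuous_ofReal.tendsto 0).comp h5
          simpa [Function.comp_def] using h6
        · simp only [if_neg h]
          exact tendsto_const_nhds
      · simp
      · intro a b _ _ ha hb
        simpa [inner_add_right] using ha.add hb
      · intro c a _ ha
        simpa [inner_smul_right] using ha.const_mul c
    have horth : ∀ p, ⟪η p, v⟫_ℂ = 0 := by
      intro p
      by_contra hne
      have hpos : 0 < ‖⟪η p, v⟫_ℂ‖ / 2 := by
        have := norm_pos_iff.2 hne
        positivity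
      obtain ⟨w, hw, hvw⟩ := Metric.mem_closure_iff.1 (hdense v) _ hpos
      have h1 := (hweak p w hw).norm
      rw [norm_zero] at h1
      obtain ⟨N, hN⟩ := (h1.eventually (gt_mem_nhds hpos)).exists
      have h2 : ⟪η (t N • p), v⟫_ℂ = ⟪η p, v⟫_ℂ := by
        rw [← hπ]
        conv_lhs => rw [← hv (t N) (ht N)]
        exact (π (t N)).inner_map_map _ _
      have h3 : ⟪η p, v⟫_ℂ = ⟪η (t N • p), w⟫_ℂ + ⟪η (t N • p), v - w⟫_ℂ := by
        rw [← inner_add_right, ← h2]
        congr 1
        abel
      have h4 : ‖⟪η (t N • p), v - w⟫_ℂ‖ ≤ ‖v - w‖ := by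
        have := norm_inner_le_norm (𝕜 := ℂ) (η (t N • p)) (v - w)
        rwa [hnorm, one_mul] at this
      have h5 := norm_add_le ⟪η (t N • p), w⟫_ℂ ⟪η (t N • p), v - w⟫_ℂ
      rw [← h3] at h5
      rw [dist_eq_norm] at hvw
      linarith
    refine hdense.eq_zero_of_inner_right (𝕜 := ℂ) ?_
    intro w hw
    refine Submodule.span_induction (p := fun w _ => ⟪w, v⟫_ℂ = 0) ?_ ?_ ?_ ?_ hw
    · rintro _ ⟨p, rfl⟩
      exact horth p
    · simp
    · intro a b _ _ ha hb
      rw [inner_add_left, ha, hb, add_zero]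
    · intro c a _ ha
      rw [inner_smul_left, ha, mul_zero]

end Pool.Agent.Lib.MP_f786e3_al
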