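import Mathlib
import Pool.Agent.Lib.MP_f786e3_al.Breaks

set_option autoImplicit false

namespace Pool.Agent.Lib.MP_f786e3_al

open OnePoint Filter Topology Matrix MeasureTheory

/-- The squared length of the image of the vector `(t, 1)`. -/
noncomputable def qf (γ : GL (Fin 2) ℝ) (t : ℝ) : ℝ :=
  (γ 0 0 * t + γ 0 1) ^ 2 + (γ 1 0 * t + γ 1 1) ^ 2

/-- The logarithmic derivative of `qf γ t / (1 + t ^ 2)`. -/
noncomputable def nf (γ : GL (Fin 2) ℝ) (t : ℝ) : ℝ :=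
  2 * (γ 0 0 * (γ 0 0 * t + γ 0 1) + γ 1 0 * (γ 1 0 * t + γ 1 1)) / qf γ t - 2 * t / (1 + t ^ 2)

/-- The logarithm of `qf γ t / (1 + t ^ 2)`. -/
noncomputable def lam (γ : GL (Fin 2) ℝ) (t : ℝ) : ℝ :=
  Real.log (qf γ t) - Real.log (1 + t ^ 2)

theorem det_ne (γ : GL (Fin 2) ℝ) : γ 0 0 * γ 1 1 - γ 0 1 * γ 1 0 ≠ 0 := by
  have := γ.det_ne_zero
  rwa [det_fin_two] at this

theorem qf_lower (γ : GL (Fin 2) ℝ) (t : ℝ) :
    (γ 0 0 * γ 1 1 - γ 0 1 * γ 1 0) ^ 2 * (1 + t ^ 2) ≤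
      (γ 0 0 ^ 2 + γ 0 1 ^ 2 + γ 1 0 ^ 2 + γ 1 1 ^ 2) * qf γ t := by
  unfold qf
  set a := γ 0 0
  set b := γ 0 1
  set c := γ 1 0
  set d := γ 1 1
  nlinarith [sq_nonneg (a * (a * t + b) + c * (c * t + d)),
    sq_nonneg (b * (a * t + b) + d * (c * t + d))]

theorem qf_pos (γ : GL (Fin 2) ℝ) (t : ℝ) : 0 < qf γ t := by
  have h1 := qf_lower γ t
  have h2 : 0 < (γ 0 0 * γ 1 1 - γ 0 1 * γ 1 0) ^ 2 * (1 + t ^ 2) := by
    have := det_ne γ
    positivity
  have h3 : 0 ≤ qf γ t := by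
    unfold qf
    positivity
  rcases h3.eq_or_lt with h | h
  · rw [← h] at h1
    linarith
  · exact h

theorem hasDerivAt_lam (γ : GL (Fin 2) ℝ) (t : ℝ) : HasDerivAt (lam γ) (nf γ t) t := by
  have h1 : HasDerivAt (qf γ)
      (2 * (γ 0 0 * (γ 0 0 * t + γ 0 1) + γ 1 0 * (γ 1 0 * t + γ 1 1))) t := by
    have ha := (((hasDerivAt_id' t).const_mul (γ 0 0)).add_const (γ 0 1)).pow 2
    have hc := (((hasDerivAt_id' t).const_mul (γ 1 0)).add_const (γ 1 1)).pow 2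
    refine (ha.add hc).congr_deriv ?_
    simp
    ring
  have h2 : HasDerivAt (fun t : ℝ => 1 + t ^ 2) (2 * t) t := by
    refine (((hasDerivAt_id' t).pow 2).const_add 1).congr_deriv ?_
    simp
  exact (h1.log (qf_pos γ t).ne').sub (h2.log (by positivity))

theorem continuous_nf (γ : GL (Fin 2) ℝ) : Continuous (nf γ) := by
  have h1 : Continuous (qf γ) := by
    unfold qf
    fun_prop
  unfold nf
  refine Continuous.sub (Continuous.div (by fun_prop) h1 fun t => (qf_pos γ t).ne')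
    (Continuous.div (by fun_prop) (by fun_prop) fun t => by positivity)

theorem integrable_nf (γ : GL (Fin 2) ℝ) : Integrable (nf γ) := by
  set a := γ 0 0 with ha
  set b := γ 0 1 with hb
  set c := γ 1 0 with hc
  set d := γ 1 1 with hd
  let C₁ : ℝ := 2 * |a * b + c * d| + |a ^ 2 + c ^ 2 - (b ^ 2 + d ^ 2)|
  let C₂ : ℝ := (a ^ 2 + b ^ 2 + c ^ 2 + d ^ 2) / (a * d - b * c) ^ 2
  refine (integrable_inv_one_add_sq.const_mul (C₁ * C₂)).mono'
    (continuous_nf γ).aestronglyMeasurable (Eventually.of_forall fun t => ?_)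
  have hq := qf_pos γ t
  have ht : 0 < 1 + t ^ 2 := by positivity
  have hdet : 0 < (a * d - b * c) ^ 2 := by
    have := det_ne γ
    positivity
  have h1 : nf γ t = (2 * (a * b + c * d) * (1 - t ^ 2) +
      (a ^ 2 + c ^ 2 - (b ^ 2 + d ^ 2)) * (2 * t)) / (1 + t ^ 2) / qf γ t := by
    unfold nf
    rw [← ha, ← hb, ← hc, ← hd]
    field_simp
    unfold qf
    rw [← ha, ← hb, ← hc, ← hd]
    ring
  have h2 : |2 * (a * b + c * d) * (1 - t ^ 2) + (a ^ 2 + c ^ 2 - (b ^ 2 + d ^ 2)) * (2 * t)| ≤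
      C₁ * (1 + t ^ 2) := by
    refine (abs_add_le _ _).trans ?_
    rw [abs_mul, abs_mul, abs_mul (a ^ 2 + c ^ 2 - (b ^ 2 + d ^ 2)), abs_two]
    have h3 : |1 - t ^ 2| ≤ 1 + t ^ 2 := abs_le.2 ⟨by nlinarith, by nlinarith⟩
    have h4 : |2 * t| ≤ 1 + t ^ 2 :=
      abs_le.2 ⟨by nlinarith [sq_nonneg (t + 1)], by nlinarith [sq_nonneg (t - 1)]⟩
    have h5 := mul_le_mul_of_nonneg_left h3 (by positivity : 0 ≤ 2 * |a * b + c * d|)
    have h6 := mul_le_mul_of_nonneg_left h4 (abs_nonneg (a ^ 2 + c ^ 2 - (b ^ 2 + d ^ 2)))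
    simp only [C₁]
    linarith
  have h7 : (qf γ t)⁻¹ ≤ C₂ * (1 + t ^ 2)⁻¹ := by
    have h8 := qf_lower γ t
    rw [← ha, ← hb, ← hc, ← hd] at h8
    simp only [C₂]
    rw [← one_div, ← div_eq_mul_inv, div_div, div_le_div_iff₀ hq (mul_pos hdet ht)]
    linarith
  have hC : 0 ≤ C₁ := by positivity
  rw [h1, Real.norm_eq_abs, abs_div, abs_div, abs_of_pos hq, abs_of_pos ht, div_eq_mul_inv,
    mul_assoc C₁ C₂]
  exact mul_le_mul ((div_le_iff₀ ht).2 h2) h7 (by positivity) hC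

/-- The transformation rule of `nf` under composition. -/
theorem nf_mul_sub (δ δ' γ : GL (Fin 2) ℝ) (t : ℝ) (ht : γ 1 0 * t + γ 1 1 ≠ 0) :
    nf (δ * γ) t - nf (δ' * γ) t =
      (γ 0 0 * γ 1 1 - γ 0 1 * γ 1 0) / (γ 1 0 * t + γ 1 1) ^ 2 *
        (nf δ ((γ 0 0 * t + γ 0 1) / (γ 1 0 * t + γ 1 1)) -
          nf δ' ((γ 0 0 * t + γ 0 1) / (γ 1 0 * t + γ 1 1))) := by
  have key : ∀ δ : GL (Fin 2) ℝ, nf (δ * γ) t + 2 * t / (1 + t ^ 2) =
      (γ 0 0 * γ 1 1 - γ 0 1 * γ 1 0) / (γ 1 0 * t + γ 1 1) ^ 2 *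
        (nf δ ((γ 0 0 * t + γ 0 1) / (γ 1 0 * t + γ 1 1)) +
          2 * ((γ 0 0 * t + γ 0 1) / (γ 1 0 * t + γ 1 1)) /
            (1 + ((γ 0 0 * t + γ 0 1) / (γ 1 0 * t + γ 1 1)) ^ 2)) +
        2 * γ 1 0 / (γ 1 0 * t + γ 1 1) := by
    intro δ
    have h1 : qf (δ * γ) t =
        qf δ ((γ 0 0 * t + γ 0 1) / (γ 1 0 * t + γ 1 1)) * (γ 1 0 * t + γ 1 1) ^ 2 := by
      simp only [qf, Units.val_mul, Matrix.mul_apply, Fin.sum_univ_two]
      field_simp
      ring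
    have h2 := qf_pos δ ((γ 0 0 * t + γ 0 1) / (γ 1 0 * t + γ 1 1))
    simp only [nf, sub_add_cancel]
    rw [h1]
    have h3 : qf δ ((γ 0 0 * t + γ 0 1) / (γ 1 0 * t + γ 1 1)) =
        (δ 0 0 * ((γ 0 0 * t + γ 0 1) / (γ 1 0 * t + γ 1 1)) + δ 0 1) ^ 2 +
          (δ 1 0 * ((γ 0 0 * t + γ 0 1) / (γ 1 0 * t + γ 1 1)) + δ 1 1) ^ 2 := rfl
    obtain ⟨y, hy⟩ : ∃ y, y = (γ 0 0 * t + γ 0 1) / (γ 1 0 * t + γ 1 1) := ⟨_, rfl⟩
    rw [← hy] at h2 h3 ⊢
    have h4 : γ 0 1 = y * (γ 1 0 * t + γ 1 1) - γ 0 0 * t := by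
      rw [hy, div_mul_cancel₀ _ ht]
      ring
    obtain ⟨Y, hY⟩ : ∃ Y, Y = γ 1 0 * t + γ 1 1 := ⟨_, rfl⟩
    have h5 : γ 1 1 = Y - γ 1 0 * t := by
      rw [hY]
      ring
    rw [← hY] at h4 ht
    simp only [Units.val_mul, Matrix.mul_apply, Fin.sum_univ_two]
    rw [← hY, h4, h5]
    field_simp
    rw [h3]
    ring
  have h1 := key δ
  have h2 := key δ'
  linear_combination h1 - h2

theorem nf_eq_of_smul_eq {γ γ' : GL (Fin 2) ℝ} (h : ∀ x : OnePoint ℝ, γ • x = γ' • x) :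
    nf γ = nf γ' := by
  have h1 : (γ'⁻¹ * γ).fixpointPolynomial = 0 := by
    refine Polynomial.eq_zero_of_infinite_isRoot _ (Set.infinite_univ.mono fun t _ => ?_)
    have ht : (γ'⁻¹ * γ) • (t : OnePoint ℝ) = t := by rw [mul_smul, h, inv_smul_smul]
    have := GeneralLinearGroup.fixpointPolynomial_aeval_eq_zero_iff.2 ht
    simpa [Polynomial.aeval_def] using this
  obtain ⟨a, ha⟩ := GeneralLinearGroup.fixpointPolynomial_eq_zero_iff.1 h1
  have h2 : ∀ i j, γ i j = γ' i j * a := by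
    intro i j
    have h3 : γ = γ' * (γ'⁻¹ * γ) := by group
    have h4 : (γ : Matrix (Fin 2) (Fin 2) ℝ) = γ'.val * (γ'⁻¹ * γ).val := by
      rw [← Units.val_mul, ← h3]
    rw [← ha] at h4
    show γ.val i j = _
    rw [h4]
    simp [Matrix.scalar_apply, Matrix.mul_diagonal]
  have ha0 : a ≠ 0 := by
    intro h0
    apply det_ne γ
    simp [h2, h0]
  ext t
  have h5 : qf γ t = qf γ' t * a ^ 2 := by
    simp only [qf, h2]
    ring
  have h6 := (qf_pos γ' t).ne'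
  simp only [nf, h5]
  simp only [h2]
  field_simp

/-- The derivative of the logarithmic distortion of a piecewise projective map. -/
noncomputable def nonlin (g : OnePoint ℝ ≃ₜ OnePoint ℝ) (t : ℝ) : ℝ :=
  open Classical in
  if h : ∃ γ : GL (Fin 2) ℝ, ∀ᶠ y in 𝓝 (t : OnePoint ℝ), g y = γ • y then nf h.choose t else 0

theorem smul_eq_of_eventually {γ γ' : GL (Fin 2) ℝ} {t : ℝ}
    (h : ∀ᶠ y in 𝓝 (t : OnePoint ℝ), γ • y = γ' • y) (x : OnePoint ℝ) : γ • x = γ' • x :=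
  smul_eq_of_infinite _ _
    (infinite_of_mem_nhds t ((OnePoint.continuous_coe.tendsto t).eventually h)) x

theorem nonlin_eq {g : OnePoint ℝ ≃ₜ OnePoint ℝ} {t : ℝ} {γ : GL (Fin 2) ℝ}
    (h : ∀ᶠ y in 𝓝 (t : OnePoint ℝ), g y = γ • y) : nonlin g t = nf γ t := by
  have h1 : ∃ γ : GL (Fin 2) ℝ, ∀ᶠ y in 𝓝 (t : OnePoint ℝ), g y = γ • y := ⟨γ, h⟩
  unfold nonlin
  rw [dif_pos h1]
  refine congrFun (nf_eq_of_smul_eq (smul_eq_of_eventually (t := t) ?_)) t
  filter_upwards [h, h1.choose_spec] with y h2 h3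
  rw [← h2, ← h3]

/-- On an open interval on whose image the map is Moebius, `nonlin` is `nf`. -/
theorem nonlin_eq_of_open {g : OnePoint ℝ ≃ₜ OnePoint ℝ} {I : Set ℝ} (hI : IsOpen I)
    {γ : GL (Fin 2) ℝ} (h : ∀ x ∈ closure ((↑) '' I : Set (OnePoint ℝ)), g x = γ • x) {t : ℝ}
    (ht : t ∈ I) : nonlin g t = nf γ t := by
  refine nonlin_eq ?_
  filter_upwards [(OnePoint.isOpenMap_coe I hI).mem_nhds ⟨t, ht, rfl⟩] with y hy
  exact h y (subset_closure hy)

theorem integrable_nonlin {g : OnePoint ℝ ≃ₜ OnePoint ℝ} (hg : g ∈ ppGroup) :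
    Integrable (nonlin g) := by
  classical
  have hfin : ((↑) ⁻¹' breaks g : Set ℝ).Finite :=
    Set.Finite.preimage OnePoint.coe_injective.injOn hg
  let B : Finset ℝ := hfin.toFinset
  have hB : ∀ t : ℝ, t ∉ B → ∃ γ : GL (Fin 2) ℝ, ∀ᶠ y in 𝓝 (t : OnePoint ℝ), g y = γ • y := by
    intro t ht
    rw [Set.Finite.mem_toFinset] at ht
    exact not_not.1 ht
  let I : Finset ℝ → Set ℝ := fun A => {t | (∀ b ∈ A, b < t) ∧ ∀ b ∈ B \ A, t < b}
  have hIo : ∀ A, IsOpen (I A) := by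
    intro A
    have h1 : I A = (⋂ b ∈ A, Set.Ioi b) ∩ ⋂ b ∈ B \ A, Set.Iio b := by
      ext t
      simp only [I, Set.mem_ofPred_eq, Set.mem_inter_iff, Set.mem_iInter, Set.mem_Ioi, Set.mem_Iio]
    rw [h1]
    exact (isOpen_biInter_finset fun _ _ => isOpen_Ioi).inter
      (isOpen_biInter_finset fun _ _ => isOpen_Iio)
  have hIc : ∀ A, IsPreconnected (I A) := by
    intro A
    refine Set.OrdConnected.isPreconnected ⟨fun x hx y hy z hz => ⟨fun b hb => ?_, fun b hb => ?_⟩⟩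
    · exact (hx.1 b hb).trans_le hz.1
    · exact hz.2.trans_lt (hy.2 b hb)
  have hγ : ∀ A : Finset ℝ, ∃ γ : GL (Fin 2) ℝ, ∀ t ∈ I A, nonlin g t = nf γ t := by
    intro A
    rcases (I A).eq_empty_or_nonempty with h | h
    · exact ⟨1, fun t ht => by simp [h] at ht⟩
    · obtain ⟨γ, hγ⟩ := exists_eq_on_closure id g g.continuous (I A) (hIc A) h (fun t ht => by
        refine hB t fun htB => ?_
        by_cases hA : t ∈ A
        · exact lt_irrefl _ (ht.1 t hA)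
        · exact lt_irrefl _ (ht.2 t (Finset.mem_sdiff.2 ⟨htB, hA⟩)))
      exact ⟨γ, fun t ht => nonlin_eq_of_open (hIo A) hγ ht⟩
  choose Γ hΓ using hγ
  have hmem : ∀ t : ℝ, t ∉ B → t ∈ I (B.filter (· < t)) := by
    intro t ht
    refine ⟨fun b hb => (Finset.mem_filter.1 hb).2, fun b hb => ?_⟩
    rw [Finset.mem_sdiff, Finset.mem_filter, not_and] at hb
    exact lt_of_le_of_ne (not_lt.1 (hb.2 hb.1)) fun h => ht (h ▸ hb.1)
  have hmeas : Measurable (nonlin g) := by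
    refine measurable_of_countable_not_continuousAt (B.countable_toSet.mono fun t ht => ?_)
    by_contra hcon
    refine ht ((continuous_nf (Γ (B.filter (· < t)))).continuousAt.congr ?_)
    filter_upwards [(hIo _).mem_nhds (hmem t hcon)] with s hs
    exact (hΓ _ s hs).symm
  refine (integrable_finsetSum B.powerset fun A _ => (integrable_nf (Γ A)).abs).mono'
    hmeas.aestronglyMeasurable ?_
  filter_upwards [B.countable_toSet.ae_notMem volume] with t ht
  rw [hΓ _ t (hmem t ht), Real.norm_eq_abs]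
  exact Finset.single_le_sum (f := fun A => |nf (Γ A) t|) (fun _ _ => abs_nonneg _)
    (Finset.mem_powerset.2 (Finset.filter_subset _ _))

/-- The real part of a point of the projective line. -/
noncomputable def toR (x : OnePoint ℝ) : ℝ := x.elim 0 id

theorem coe_toR {x : OnePoint ℝ} (hx : x ≠ ∞) : ((toR x : ℝ) : OnePoint ℝ) = x := by
  cases x with
  | infty => exact absurd rfl hx
  | coe t => rfl

/-- Right invariance of the `L¹` distance between the nonlinearities. -/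
theorem integral_nonlin_mul {g h k : OnePoint ℝ ≃ₜ OnePoint ℝ} (hg : g ∈ ppGroup)
    (hh : h ∈ ppGroup) (hk : k ∈ ppGroup) :
    ∫ t, |nonlin (g * k) t - nonlin (h * k) t| = ∫ t, |nonlin g t - nonlin h t| := by
  let bad : Set (OnePoint ℝ) := breaks k ∪ k ⁻¹' (insert ∞ (breaks g ∪ breaks h))
  have hbad : bad.Finite :=
    Set.Finite.union hk (Set.Finite.preimage k.injective.injOn ((Set.Finite.union hg hh).insert _))
  let s : Set ℝ := ((↑) ⁻¹' bad)ᶜ
  have hsc : sᶜ.Finite := by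
    rw [compl_compl]
    exact hbad.preimage OnePoint.coe_injective.injOn
  have hsm : MeasurableSet s := MeasurableSet.of_compl hsc.measurableSet
  let f : ℝ → ℝ := fun t => toR (k t)
  have hs : ∀ t ∈ s, ∃ d : ℝ, HasDerivAt f d t ∧
      nonlin (g * k) t - nonlin (h * k) t = d * (nonlin g (f t) - nonlin h (f t)) := by
    intro t ht
    have ht' : (t : OnePoint ℝ) ∉ bad := ht
    simp only [bad, Set.mem_union, Set.mem_preimage, Set.mem_insert_iff, not_or] at ht'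
    obtain ⟨h1, h2, h3, h4⟩ := ht'
    obtain ⟨γ, hγ⟩ := not_not.1 h1
    obtain ⟨δ, hδ⟩ := not_not.1 h3
    obtain ⟨δ', hδ'⟩ := not_not.1 h4
    have hY : γ 1 0 * t + γ 1 1 ≠ 0 := by
      intro h0
      apply h2
      rw [hγ.self_of_nhds, smul_some_eq_ite, if_pos h0]
    have hev : ∀ᶠ r in 𝓝 t, f r = (γ 0 0 * r + γ 0 1) / (γ 1 0 * r + γ 1 1) := by
      have hc : Continuous fun r : ℝ => γ 1 0 * r + γ 1 1 := by fun_prop
      filter_upwards [(OnePoint.continuous_coe.tendsto t).eventually hγ,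
        hc.continuousAt.eventually_ne hY] with r hr1 hr2
      simp only [f]
      rw [hr1, smul_some_eq_ite, if_neg hr2]
      rfl
    have hcomp : ∀ (p : OnePoint ℝ ≃ₜ OnePoint ℝ) (ε : GL (Fin 2) ℝ),
        (∀ᶠ y in 𝓝 (k t), p y = ε • y) →
        nonlin (p * k) t = nf (ε * γ) t ∧ nonlin p (f t) = nf ε (f t) := by
      intro p ε hε
      constructor
      · refine nonlin_eq ?_
        filter_upwards [hγ, (k.continuous.tendsto _).eventually hε] with y h5 h6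
        rw [mul_smul, ← h5, ← h6]
        rfl
      · refine nonlin_eq ?_
        rwa [coe_toR h2]
    refine ⟨(γ 0 0 * γ 1 1 - γ 0 1 * γ 1 0) / (γ 1 0 * t + γ 1 1) ^ 2, ?_, ?_⟩
    · have ha := ((hasDerivAt_id' t).const_mul (γ 0 0)).add_const (γ 0 1)
      have hc := ((hasDerivAt_id' t).const_mul (γ 1 0)).add_const (γ 1 1)
      refine ((ha.div hc hY).congr_deriv ?_).congr_of_eventuallyEq hev
      congr 1
      ring
    · rw [(hcomp g δ hδ).1, (hcomp h δ' hδ').1, (hcomp g δ hδ).2, (hcomp h δ' hδ').2,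
        nf_mul_sub _ _ _ _ hY, hev.self_of_nhds]
  choose! f' hf1 hf2 using hs
  have hne : ∀ t ∈ s, k t ≠ ∞ := by
    intro t ht h0
    exact ht (Or.inr (Or.inl h0))
  have hinj : Set.InjOn f s := by
    intro a ha b hb hab
    have h1 : ((f a : ℝ) : OnePoint ℝ) = (f b : ℝ) := by rw [hab]
    simp only [f] at h1
    rw [coe_toR (hne a ha), coe_toR (hne b hb)] at h1
    exact OnePoint.coe_injective (k.injective h1)
  have himc : (f '' s)ᶜ.Finite := by
    refine (((hbad.insert ∞).image k).preimage OnePoint.coe_injective.injOn).subset ?_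
    intro y hy
    refine ⟨k.symm y, ?_, k.apply_symm_apply _⟩
    by_contra hcon
    rw [Set.mem_insert_iff, not_or] at hcon
    refine hy ⟨toR (k.symm y), ?_, ?_⟩
    · show ((toR (k.symm y) : ℝ) : OnePoint ℝ) ∉ bad
      rw [coe_toR hcon.1]
      exact hcon.2
    · simp only [f]
      rw [coe_toR hcon.1, k.apply_symm_apply]
      rfl
  have hres : ∀ S : Set ℝ, Sᶜ.Finite → (volume : Measure ℝ).restrict S = volume := by
    intro S hS
    refine Measure.restrict_eq_self_of_ae_mem ?_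
    filter_upwards [hS.countable.ae_notMem volume] with x hx
    exact not_not.1 hx
  have h1 := integral_image_eq_integral_abs_deriv_smul hsm
    (fun x hx => (hf1 x hx).hasDerivWithinAt) hinj (fun t => |nonlin g t - nonlin h t|)
  rw [hres _ himc] at h1
  rw [h1, ← hres s hsc]
  simp only [Measure.restrict_restrict hsm, Set.inter_self]
  refine setIntegral_congr_fun hsm fun t ht => ?_
  simp only [smul_eq_mul]
  rw [hf2 t ht, abs_mul]

end Pool.Agent.Lib.MP_f786e3_al
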