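import Mathlib
import Pool.Agent.Lib.MP_f786e3_al.VarMoebius
import Pool.Agent.Lib.MP_f786e3_al.VarKernel

set_option autoImplicit false

namespace Pool.Agent.Lib.MP_f786e3_al

open OnePoint Filter Topology Matrix MeasureTheory

/-- The point of the projective line with homogeneous coordinates `(p, q)`. -/
noncomputable def proj (p q : ℤ) : OnePoint ℝ :=
  if q = 0 then ∞ else (((p : ℝ) / (q : ℝ) : ℝ) : OnePoint ℝ)

theorem sq_add_sq_eq_of_proj_eq {p q p' q' : ℤ} (h : IsCoprime p q) (h' : IsCoprime p' q')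
    (he : proj p q = proj p' q') : p ^ 2 + q ^ 2 = p' ^ 2 + q' ^ 2 := by
  have h1 : p * q' = p' * q := by
    unfold proj at he
    by_cases hq : q = 0 <;> by_cases hq' : q' = 0
    · simp [hq, hq']
    · simp [hq, hq'] at he
    · simp [hq, hq'] at he
    · rw [if_neg hq, if_neg hq', coe_eq_coe,
        div_eq_div_iff (Int.cast_ne_zero.2 hq) (Int.cast_ne_zero.2 hq')] at he
      exact_mod_cast he
  have h2 : p ∣ p' := h.dvd_of_dvd_mul_right ⟨q', h1.symm⟩
  have h3 : p' ∣ p := h'.dvd_of_dvd_mul_right ⟨q, h1⟩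
  have h4 : q ∣ q' := h.symm.dvd_of_dvd_mul_left ⟨p', by rw [h1, mul_comm]⟩
  have h5 : q' ∣ q := h'.symm.dvd_of_dvd_mul_left ⟨p, by rw [← h1, mul_comm]⟩
  have h6 : p ^ 2 = p' ^ 2 := by
    rcases Int.associated_iff.1 (associated_of_dvd_dvd h2 h3) with h7 | h7 <;> simp [h7]
  have h8 : q ^ 2 = q' ^ 2 := by
    rcases Int.associated_iff.1 (associated_of_dvd_dvd h4 h5) with h7 | h7 <;> simp [h7]
  rw [h6, h8]

/-- The square of the height of a rational point. -/
noncomputable def hsq (x : OnePoint ℝ) : ℝ :=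
  open Classical in
  if h : ∃ v : ℤ × ℤ, IsCoprime v.1 v.2 ∧ x = proj v.1 v.2 then
    ((h.choose.1 ^ 2 + h.choose.2 ^ 2 : ℤ) : ℝ) else 1

theorem hsq_proj {p q : ℤ} (h : IsCoprime p q) : hsq (proj p q) = (p : ℝ) ^ 2 + (q : ℝ) ^ 2 := by
  have h1 : ∃ v : ℤ × ℤ, IsCoprime v.1 v.2 ∧ proj p q = proj v.1 v.2 := ⟨(p, q), h, rfl⟩
  unfold hsq
  rw [dif_pos h1, ← sq_add_sq_eq_of_proj_eq h h1.choose_spec.1 h1.choose_spec.2]
  push_cast
  ring

theorem proj_rat (x : ℚ) : ((x : ℝ) : OnePoint ℝ) = proj x.num x.den := by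
  unfold proj
  rw [if_neg (by exact_mod_cast x.den_nz), coe_eq_coe]
  exact_mod_cast (Rat.num_div_den x).symm

theorem coprime_rat (x : ℚ) : IsCoprime x.num (x.den : ℤ) :=
  Int.isCoprime_iff_gcd_eq_one.2 x.reduced

theorem exists_proj {x : OnePoint ℝ} (hx : IsRationalPoint x) :
    ∃ p q : ℤ, IsCoprime p q ∧ x = proj p q := by
  rcases hx with rfl | ⟨r, rfl⟩
  · exact ⟨1, 0, isCoprime_one_left, by simp [proj]⟩
  · exact ⟨_, _, coprime_rat r, proj_rat r⟩

theorem one_le_hsq {x : OnePoint ℝ} (hx : IsRationalPoint x) : 1 ≤ hsq x := by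
  obtain ⟨p, q, h, rfl⟩ := exists_proj hx
  rw [hsq_proj h]
  have h1 : (1 : ℤ) ≤ p ^ 2 + q ^ 2 := by
    rcases h.ne_zero_or_ne_zero with h2 | h2
    · nlinarith [sq_nonneg q, Int.one_le_abs h2, sq_abs p, abs_nonneg p]
    · nlinarith [sq_nonneg p, Int.one_le_abs h2, sq_abs q, abs_nonneg q]
  exact_mod_cast h1

theorem hsq_infty : hsq ∞ = 1 := by
  have h : (∞ : OnePoint ℝ) = proj 1 0 := by simp [proj]
  rw [h, hsq_proj isCoprime_one_left]
  simp

theorem hsq_zero : hsq (((0 : ℚ) : ℝ) : OnePoint ℝ) = 1 := by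
  rw [proj_rat, hsq_proj (coprime_rat 0)]
  simp

theorem finite_hsq_le (M : ℝ) : {x : OnePoint ℝ | IsRationalPoint x ∧ hsq x ≤ M}.Finite := by
  obtain ⟨N, hN⟩ := exists_nat_ge M
  refine (((Set.finite_Icc (-(N : ℤ)) N).prod (Set.finite_Icc (-(N : ℤ)) N)).image
    fun v : ℤ × ℤ => proj v.1 v.2).subset ?_
  rintro x ⟨hx, hM⟩
  obtain ⟨p, q, h, rfl⟩ := exists_proj hx
  rw [hsq_proj h] at hM
  have h1 : p ^ 2 + q ^ 2 ≤ (N : ℤ) := by exact_mod_cast hM.trans hN
  refine ⟨(p, q), ⟨⟨?_, ?_⟩, ?_, ?_⟩, rfl⟩ <;> dsimp only <;>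
    nlinarith [sq_nonneg p, sq_nonneg q, sq_nonneg (p - 1), sq_nonneg (p + 1), sq_nonneg (q - 1),
      sq_nonneg (q + 1)]

/-- For integral matrices, `lam` at a rational point is a difference of logarithmic heights. -/
theorem lam_rat (γ : SpecialLinearGroup (Fin 2) ℤ) (x : ℚ) :
    lam (SpecialLinearGroup.mapGL ℝ γ) x =
      Real.log (hsq (SpecialLinearGroup.mapGL ℝ γ • ((x : ℝ) : OnePoint ℝ))) -
        Real.log (hsq ((x : ℝ) : OnePoint ℝ)) := by
  have hent : ∀ i j, (SpecialLinearGroup.mapGL ℝ γ) i j = ((γ i j : ℤ) : ℝ) := by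
    intro i j
    simp [SpecialLinearGroup.mapGL]
  have hdet : γ 0 0 * γ 1 1 - γ 0 1 * γ 1 0 = 1 := by
    have := γ.det_coe
    rwa [det_fin_two] at this
  have hq : ((x.den : ℤ) : ℝ) ≠ 0 := by exact_mod_cast x.den_nz
  have hx : (x : ℝ) = (x.num : ℝ) / ((x.den : ℤ) : ℝ) := by
    exact_mod_cast (Rat.num_div_den x).symm
  obtain ⟨p, hp⟩ : ∃ p : ℤ, p = x.num := ⟨_, rfl⟩
  obtain ⟨q, hq'⟩ : ∃ q : ℤ, q = (x.den : ℤ) := ⟨_, rfl⟩
  have hc := coprime_rat x
  have hpr := proj_rat x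
  rw [← hp, ← hq'] at hx hc hpr
  rw [← hq'] at hq
  have hc2 : IsCoprime (γ 0 0 * p + γ 0 1 * q) (γ 1 0 * p + γ 1 1 * q) := by
    obtain ⟨u, v, huv⟩ := hc
    refine ⟨u * γ 1 1 - v * γ 1 0, v * γ 0 0 - u * γ 0 1, ?_⟩
    linear_combination (u * p + v * q) * hdet + huv
  have h1 : ∀ a b : ℤ, (a : ℝ) * (x : ℝ) + (b : ℝ) = ((a * p + b * q : ℤ) : ℝ) / (q : ℝ) := by
    intro a b
    rw [hx]
    push_cast
    field_simp
  have h2 : SpecialLinearGroup.mapGL ℝ γ • ((x : ℝ) : OnePoint ℝ) =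
      proj (γ 0 0 * p + γ 0 1 * q) (γ 1 0 * p + γ 1 1 * q) := by
    rw [smul_some_eq_ite, hent, hent, hent, hent, h1, h1]
    unfold proj
    by_cases h0 : γ 1 0 * p + γ 1 1 * q = 0
    · rw [if_pos h0, if_pos (by rw [h0]; simp)]
    · have h0' : ((γ 1 0 * p + γ 1 1 * q : ℤ) : ℝ) ≠ 0 := Int.cast_ne_zero.2 h0
      rw [if_neg h0, if_neg (div_ne_zero h0' hq), coe_eq_coe, div_div_div_cancel_right₀ hq]
  have h3 := qf_pos (SpecialLinearGroup.mapGL ℝ γ) x
  have h4 : ((γ 0 0 * p + γ 0 1 * q : ℤ) : ℝ) ^ 2 + ((γ 1 0 * p + γ 1 1 * q : ℤ) : ℝ) ^ 2 =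
      qf (SpecialLinearGroup.mapGL ℝ γ) x * (q : ℝ) ^ 2 := by
    unfold qf
    rw [hent, hent, hent, hent, h1, h1]
    field_simp
  have h5 : (p : ℝ) ^ 2 + (q : ℝ) ^ 2 = (1 + (x : ℝ) ^ 2) * (q : ℝ) ^ 2 := by
    rw [hx]
    field_simp
    ring
  rw [h2, hpr, hsq_proj hc, hsq_proj hc2, h4, h5, Real.log_mul h3.ne' (pow_ne_zero 2 hq),
    Real.log_mul (by positivity) (pow_ne_zero 2 hq)]
  unfold lam
  ring

/-- The logarithmic change of height at a rational number. -/
noncomputable def dht (g : OnePoint ℝ ≃ₜ OnePoint ℝ) (x : ℚ) : ℝ :=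
  Real.log (hsq (g ((x : ℝ) : OnePoint ℝ))) - Real.log (hsq ((x : ℝ) : OnePoint ℝ))

theorem thompsonT_le_pp : thompsonT ≤ ppGroup :=
  le_trans (fun _ hf => Subgroup.subset_closure (Or.inl hf)) groupS_le_pp

/-- For elements of `T` the change of height is a primitive of the nonlinearity. -/
theorem dht_sub {g : OnePoint ℝ ≃ₜ OnePoint ℝ} (hg : g ∈ thompsonT) (x y : ℚ) (hxy : x < y) :
    dht g y - dht g x = ∫ t in (x : ℝ)..(y : ℝ), nonlin g t := by
  classical
  have hint := integrable_nonlin (thompsonT_le_pp hg)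
  obtain ⟨B, hB1, hB2⟩ := hg
  have hfin : ((fun r : ℚ => ((r : ℝ) : OnePoint ℝ)) ⁻¹' (B : Set (OnePoint ℝ))).Finite :=
    B.finite_toSet.preimage (OnePoint.coe_injective.comp Rat.cast_injective).injOn
  let C : Finset ℚ := hfin.toFinset
  suffices h : ∀ (n : ℕ) (x y : ℚ), x < y → (C.filter fun b => x < b ∧ b < y).card = n →
      dht g y - dht g x = ∫ t in (x : ℝ)..(y : ℝ), nonlin g t from h _ x y hxy rfl
  intro n
  induction n using Nat.strong_induction_on with
  | _ n ih =>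
    intro x y hxy hn
    rcases (C.filter fun b => x < b ∧ b < y).eq_empty_or_nonempty with he | ⟨b, hb⟩
    · have hxy' : (x : ℝ) < y := Rat.cast_lt.2 hxy
      obtain ⟨γ, hγ⟩ := exists_eq_on_closure (fun γ : SpecialLinearGroup (Fin 2) ℤ =>
        SpecialLinearGroup.mapGL ℝ γ) g g.continuous (Set.Ioo (x : ℝ) y) isPreconnected_Ioo
        (Set.nonempty_Ioo.2 hxy') (fun t ht => hB2 _ fun htB => by
          rcases hB1 _ htB with h | ⟨r, hr⟩
          · exact coe_ne_infty _ h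
          · obtain rfl := coe_eq_coe.1 hr
            have h1 : r ∈ C.filter fun b => x < b ∧ b < y :=
              Finset.mem_filter.2 ⟨hfin.mem_toFinset.2 htB, Rat.cast_lt.1 ht.1, Rat.cast_lt.1 ht.2⟩
            rw [he] at h1
            exact Finset.notMem_empty _ h1)
      have hcl : ∀ t ∈ Set.Icc (x : ℝ) y,
          g (t : OnePoint ℝ) = SpecialLinearGroup.mapGL ℝ γ • (t : OnePoint ℝ) := by
        intro t ht
        refine hγ _ (image_closure_subset_closure_image OnePoint.continuous_coe ⟨t, ?_, rfl⟩)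
        rwa [closure_Ioo hxy'.ne]
      unfold dht
      rw [hcl x ⟨le_rfl, hxy'.le⟩, hcl y ⟨hxy'.le, le_rfl⟩, ← lam_rat, ← lam_rat,
        ← intervalIntegral.integral_eq_sub_of_hasDerivAt (fun t _ => hasDerivAt_lam _ t)
          ((continuous_nf _).intervalIntegrable _ _),
        intervalIntegral.integral_of_le hxy'.le, intervalIntegral.integral_of_le hxy'.le,
        integral_Ioc_eq_integral_Ioo, integral_Ioc_eq_integral_Ioo]
      exact setIntegral_congr_fun measurableSet_Ioo fun t ht =>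
        (nonlin_eq_of_open isOpen_Ioo hγ ht).symm
    · obtain ⟨hbC, hxb, hby⟩ := Finset.mem_filter.1 hb
      have h1 := ih _ (hn ▸ Finset.card_lt_card (s := C.filter fun c => x < c ∧ c < b) ⟨by
        intro c hc
        obtain ⟨k1, k2, k3⟩ := Finset.mem_filter.1 hc
        exact Finset.mem_filter.2 ⟨k1, k2, k3.trans hby⟩, fun h =>
          lt_irrefl _ (Finset.mem_filter.1 (h hb)).2.2⟩) x b hxb rfl
      have h2 := ih _ (hn ▸ Finset.card_lt_card (s := C.filter fun c => b < c ∧ c < y) ⟨by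
        intro c hc
        obtain ⟨k1, k2, k3⟩ := Finset.mem_filter.1 hc
        exact Finset.mem_filter.2 ⟨k1, hxb.trans k2, k3⟩, fun h =>
          lt_irrefl _ (Finset.mem_filter.1 (h hb)).2.1⟩) b y hby rfl
      rw [← intervalIntegral.integral_add_adjacent_intervals (b := (b : ℝ))
        hint.intervalIntegrable hint.intervalIntegrable]
      linarith

theorem abs_dht_sub_le {g : OnePoint ℝ ≃ₜ OnePoint ℝ} (hg : g ∈ thompsonT) (x y : ℚ) :
    |dht g y - dht g x| ≤ ∫ t, |nonlin g t| := by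
  have hint := integrable_nonlin (thompsonT_le_pp hg)
  have key : ∀ x y : ℚ, x < y → |dht g y - dht g x| ≤ ∫ t, |nonlin g t| := by
    intro x y hxy
    have hxy' : (x : ℝ) ≤ y := (Rat.cast_lt.2 hxy).le
    rw [dht_sub hg x y hxy]
    refine (intervalIntegral.abs_integral_le_integral_abs hxy').trans ?_
    rw [intervalIntegral.integral_of_le hxy']
    exact setIntegral_le_integral hint.abs (Eventually.of_forall fun t => abs_nonneg _)
  rcases lt_trichotomy x y with h | h | h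
  · exact key x y h
  · rw [h, sub_self, abs_zero]
    exact integral_nonneg fun t => abs_nonneg _
  · rw [abs_sub_comm]
    exact key y x h

/-- The height of a rational point grows at most by the exponential of the variation. -/
theorem hsq_apply_le {g : OnePoint ℝ ≃ₜ OnePoint ℝ} (hg : g ∈ thompsonT) {C : ℝ}
    (hC : ∫ t, |nonlin g⁻¹ t| ≤ C) {x : OnePoint ℝ} (hx : IsRationalPoint x) :
    hsq (g x) ≤ Real.exp C * hsq x := by
  have hg' := thompsonT.inv_mem hg
  have h0 : 0 ≤ C := (integral_nonneg fun t => abs_nonneg _).trans hC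
  have hx1 := one_le_hsq hx
  have hgx := (IsPiecewisePSL2Z.rat hg x).2 hx
  rcases id hgx with h | ⟨z, hz⟩
  · rw [h, hsq_infty]
    nlinarith [Real.one_le_exp h0]
  · have h1 := (abs_le.1 ((abs_dht_sub_le hg' 0 z).trans hC)).1
    have h2 : 0 ≤ dht g⁻¹ 0 := by
      unfold dht
      rw [hsq_zero, Real.log_one, sub_zero]
      exact Real.log_nonneg (one_le_hsq ((IsPiecewisePSL2Z.rat hg' _).2 (Or.inr ⟨0, rfl⟩)))
    have h3 : dht g⁻¹ z = Real.log (hsq x) - Real.log (hsq (g x)) := by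
      unfold dht
      rw [← hz]
      congr 3
      exact g.symm_apply_apply x
    have h4 := one_le_hsq hgx
    rw [← Real.log_le_log_iff (by linarith) (by positivity),
      Real.log_mul (by positivity) (by linarith), Real.log_exp]
    linarith

/-- A homeomorphism fixing `∞, 0, 1` with finite orbits on the rationals is the identity. -/
theorem eq_one_of_finite_orbits (g : OnePoint ℝ ≃ₜ OnePoint ℝ) (h0 : g ∞ = ∞)
    (h1 : g ((0 : ℝ) : OnePoint ℝ) = (0 : ℝ)) (h2 : g ((1 : ℝ) : OnePoint ℝ) = (1 : ℝ))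
    (h3 : ∀ x : ℚ, (Set.range fun n : ℕ => (g ^ n) ((x : ℝ) : OnePoint ℝ)).Finite) : g = 1 := by
  let f : ℝ → ℝ := fun t => toR (g t)
  have hf : ∀ t : ℝ, ((f t : ℝ) : OnePoint ℝ) = g t := fun t =>
    coe_toR fun h => coe_ne_infty t (g.injective (h.trans h0.symm))
  have hfc : Continuous f := by
    rw [OnePoint.isOpenEmbedding_coe.isInducing.continuous_iff]
    exact (g.continuous.comp OnePoint.continuous_coe).congr fun t => (hf t).symm
  have hfi : Function.Injective f := fun a b hab =>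
    OnePoint.coe_injective (g.injective (by rw [← hf, ← hf, hab]))
  have hf0 : f 0 = 0 := OnePoint.coe_injective ((hf 0).trans h1)
  have hf1 : f 1 = 1 := OnePoint.coe_injective ((hf 1).trans h2)
  have hm : StrictMono f := by
    rcases hfc.strictMono_of_inj hfi with h | h
    · exact h
    · have := h zero_lt_one
      rw [hf0, hf1] at this
      linarith
  have hit : ∀ (n : ℕ) (t : ℝ), (g ^ n) (t : OnePoint ℝ) = ((f^[n] t : ℝ) : OnePoint ℝ) := by
    intro n
    induction n with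
    | zero => intro t; rfl
    | succ n ih =>
      intro t
      rw [pow_succ, Function.iterate_succ_apply, ← ih, hf]
      rfl
  have hfix : ∀ x : ℚ, f x = x := by
    intro x
    by_contra hne
    have hinj : Function.Injective fun n : ℕ => f^[n] x := by
      rcases lt_or_gt_of_ne hne with h | h
      · exact (hm.strictAnti_iterate_of_map_lt h).injective
      · exact (hm.strictMono_iterate_of_lt_map h).injective
    refine Set.infinite_range_of_injective (f := fun n : ℕ => (g ^ n) ((x : ℝ) : OnePoint ℝ))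
      (fun a b hab => hinj ?_) (h3 x)
    simp only [hit] at hab
    exact OnePoint.coe_injective hab
  have hid : f = id := Rat.denseRange_cast.equalizer hfc continuous_id (funext hfix)
  ext x
  cases x with
  | infty => exact h0
  | coe t =>
    rw [← hf, hid]
    rfl

/-- A subgroup of `T` on which the variation is bounded is finite. -/
theorem finite_of_bounded (H : Subgroup (OnePoint ℝ ≃ₜ OnePoint ℝ)) (hH : H ≤ thompsonT) (C : ℝ)
    (hC : ∀ g ∈ H, ∫ t, |nonlin g t| ≤ C) : Finite H := by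
  have horb : ∀ x, IsRationalPoint x → ∀ g ∈ H,
      g x ∈ {y : OnePoint ℝ | IsRationalPoint y ∧ hsq y ≤ Real.exp C * hsq x} := fun x hx g hg =>
    ⟨(IsPiecewisePSL2Z.rat (hH hg) x).2 hx, hsq_apply_le (hH hg) (hC _ (H.inv_mem hg)) hx⟩
  have r0 : IsRationalPoint ((0 : ℝ) : OnePoint ℝ) := Or.inr ⟨0, by simp⟩
  have r1 : IsRationalPoint ((1 : ℝ) : OnePoint ℝ) := Or.inr ⟨1, by simp⟩
  let φ : H → OnePoint ℝ × OnePoint ℝ × OnePoint ℝ :=
    fun g => (g.1 ∞, g.1 ((0 : ℝ) : OnePoint ℝ), g.1 ((1 : ℝ) : OnePoint ℝ))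
  have hφ : Function.Injective φ := by
    intro a b hab
    simp only [φ, Prod.mk.injEq] at hab
    have hfix : ∀ x, a.1 x = b.1 x → (b.1⁻¹ * a.1) x = x := by
      intro x hx
      show b.1.symm (a.1 x) = x
      rw [hx, b.1.symm_apply_apply]
    have h1 := eq_one_of_finite_orbits (b.1⁻¹ * a.1) (hfix _ hab.1) (hfix _ hab.2.1)
      (hfix _ hab.2.2) fun x => (finite_hsq_le _).subset (by
        rintro _ ⟨n, rfl⟩
        exact horb _ (Or.inr ⟨x, rfl⟩) _ (H.pow_mem (H.mul_mem (H.inv_mem b.2) a.2) n))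
    exact Subtype.ext (inv_mul_eq_one.1 h1).symm
  rw [← Set.finite_range_iff hφ]
  refine ((finite_hsq_le (Real.exp C * hsq ∞)).prod
    ((finite_hsq_le (Real.exp C * hsq ((0 : ℝ) : OnePoint ℝ))).prod
      (finite_hsq_le (Real.exp C * hsq ((1 : ℝ) : OnePoint ℝ))))).subset ?_
  rintro _ ⟨g, rfl⟩
  exact ⟨horb _ (Or.inl rfl) _ g.2, horb _ r0 _ g.2, horb _ r1 _ g.2⟩

theorem nonlin_one (t : ℝ) : nonlin 1 t = 0 := by
  rw [nonlin_eq (γ := 1) (Eventually.of_forall fun y => by simp)]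
  simp [nf, qf, add_comm]

/-- In a group of piecewise projective homeomorphisms, a subgroup with relative property (T)
meets `T` in a finite group. -/
theorem finite_of_relT (S : Subgroup (OnePoint ℝ ≃ₜ OnePoint ℝ)) (hS : S ≤ ppGroup)
    (H : Subgroup S) (hT : HasRelativePropertyT S H) :
    Finite (H ⊓ thompsonT.subgroupOf S : Subgroup S) := by
  have hb : ∃ N : ℕ, ∀ h ∈ H, ∫ t, |nonlin h.1⁻¹ t| ≤ N := by
    by_contra hcon
    push Not at hcon
    obtain ⟨E, i1, i2, i3, π, h1, h2⟩ := exists_rep_of_L1 (G := S) volume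
      (fun g => nonlin g.1⁻¹) (fun g => integrable_nonlin (hS g⁻¹.2)) (by
        intro k g h
        have := integral_nonlin_mul (hS g⁻¹.2) (hS h⁻¹.2) (hS k⁻¹.2)
        simpa using this) (H : Set S) (by
        intro N
        obtain ⟨h, hh, hN⟩ := hcon N
        refine ⟨h, hh, ?_⟩
        simpa [nonlin_one] using hN.le)
    obtain ⟨v, hv, hv2⟩ := hT E π h1
    exact hv (h2 v hv2)
  obtain ⟨N, hN⟩ := hb
  have hfin := finite_of_bounded ((H ⊓ thompsonT.subgroupOf S).map S.subtype) (by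
    rintro _ ⟨g, hg, rfl⟩
    exact hg.2) N (by
    rintro _ ⟨g, hg, rfl⟩
    simpa using hN g⁻¹ (H.inv_mem hg.1))
  exact Finite.of_equiv _
    ((H ⊓ thompsonT.subgroupOf S).equivMapOfInjective S.subtype S.subtype_injective).symm.toEquiv

/-- A finite subgroup has relative property (T). -/
theorem relT_of_finite {G : Type} [Group G] (H : Subgroup G) [Finite H] :
    HasRelativePropertyT G H := by
  classical
  intro E _ _ _ π hπ
  have := Fintype.ofFinite H
  obtain ⟨v, hv, hF⟩ := hπ (Finset.univ.image fun h : H => (h : G)) 1 one_pos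
  refine ⟨∑ h : H, π h v, fun h0 => ?_, fun k hk => ?_⟩
  · have h1 : ∑ h : H, (π h v - v) = -((Fintype.card H : ℂ) • v) := by
      rw [Finset.sum_sub_distrib, h0, Finset.sum_const, Finset.card_univ, zero_sub,
        Nat.cast_smul_eq_nsmul]
    have h2 : ‖∑ h : H, (π h v - v)‖ < ∑ _h : H, (1 : ℝ) :=
      (norm_sum_le _ _).trans_lt (Finset.sum_lt_sum_of_nonempty Finset.univ_nonempty
        fun h _ => hF _ (Finset.mem_image_of_mem _ (Finset.mem_univ h)))
    rw [h1, norm_neg, norm_smul, hv] at h2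
    simp at h2
  · rw [map_sum]
    refine Fintype.sum_equiv (Equiv.mulLeft (⟨k, hk⟩ : H)) _ _ fun h => ?_
    simp

end Pool.Agent.Lib.MP_f786e3_al
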